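import Pool.Agent.Y671.LD.Cov

/-!
Project SD, task SPt: location of the zeros at good heights.
-/

set_option autoImplicit false

namespace Pool.Agent.Y671.LD

open Complex Filter Topology MeasureTheory Set
open Pool.Agent.H24R2.DZ (ra NN SB3 SB1a SB1b)

variable {F : ℂ → ℂ}

theorem iter_comp (hF : Differentiable ℂ F) (n : ℕ) (c r z : ℂ) :
    iteratedDeriv n (fun z => F (c + r * z)) z = r ^ n * iteratedDeriv n F (c + r * z) := by
  have h1 : ContDiff ℂ n (fun z => F (c + z)) :=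
    (hF.comp (by fun_prop : Differentiable ℂ (fun z : ℂ => c + z))).contDiff
  have h2 := congrFun (iteratedDeriv_comp_const_mul h1 r) z
  rw [h2, iteratedDeriv_comp_const_add]

theorem NN_mono {a η η' : ℝ} {F : ℂ → ℂ} (h : NN a η F) (hη : η ≤ η') (ha : 0 ≤ a) : NN a η' F :=
  ⟨h.diff, h.symm, fun z h1 h2 => ⟨(h.far z h1 h2).1, (h.far z h1 h2).2.trans
    (mul_le_mul_of_nonneg_right hη ha)⟩, h.near⟩

theorem Loc_mono {η η' T : ℝ} {n j0 J : ℕ} {t : ℝ} (h : Loc F η T n j0 J t) (hη : η ≤ η') :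
    Loc F η' T n j0 J t := by
  intro j hj hJ
  obtain ⟨t', h1, h2⟩ := h j hj hJ
  exact ⟨t', h1, NN_mono h2 hη (by positivity)⟩

theorem ra_pos {T a : ℝ} (hT : 2 ≤ T) (ha : 0 < a) : 0 < ra T a := by
  unfold ra
  have : 0 < Real.log T := Real.log_pos (by linarith)
  positivity

/-- the local coordinate -/
theorem coord {r t' : ℝ} {s : ℂ} (hr : 0 < r) :
    I * t' + r * ((s - I * t') / r) = s ∧ ((s - I * t') / r).re = s.re / r ∧
      ((s - I * t') / r).im = (s.im - t') / r := by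
  have hr' : (r : ℂ) ≠ 0 := by exact_mod_cast hr.ne'
  refine ⟨by field_simp; ring, ?_, ?_⟩
  · rw [Complex.div_ofReal_re]; simp
  · rw [Complex.div_ofReal_im]; simp

/-- No zeros of the `n`-th derivative at distances between `5 r_{j0}` and `5 r_J`. -/
def PtA (F : ℂ → ℂ) : Prop := ∃ η : ℝ, 0 < η ∧ ∀ (T : ℝ) (n J j0 : ℕ) (s : ℂ), 2 ≤ T → 1 ≤ n → j0 ≤ J →
  iteratedDeriv n F s = 0 → Loc F η T n j0 J s.im →
  |s.re| ≤ 5 * ra T (2 ^ j0 * n) ∨ 5 * ra T (2 ^ J * n) < |s.re|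

/-- No bad zeros up to the distance `5 r_J`. -/
def PtB (F : ℂ → ℂ) : Prop := ∃ η : ℝ, ∃ n0 : ℕ, 0 < η ∧ 1 ≤ n0 ∧ ∀ (T : ℝ) (n J : ℕ) (s : ℂ), 2 ≤ T → n0 ≤ n →
  bad F n s → Loc F η T n 0 J s.im → 5 * ra T (2 ^ J * n) < |s.re|

theorem pta (hF : Differentiable ℂ F) (h : SB3) : PtA F := by
  obtain ⟨η, hη, h3⟩ := h
  refine ⟨η, hη, ?_⟩
  intro T n J j0 s hT hn hj hs hLoc
  by_contra hcon
  push Not at hcon
  obtain ⟨hc1, hc2⟩ := hcon
  classical
  have hex : ∃ j, j0 ≤ j ∧ |s.re| ≤ 5 * ra T (2 ^ j * n) := ⟨J, hj, hc2⟩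
  obtain ⟨j, ⟨hj1, hj2⟩, hmin⟩ : ∃ j, (j0 ≤ j ∧ |s.re| ≤ 5 * ra T (2 ^ j * n)) ∧
      ∀ i < j, ¬ (j0 ≤ i ∧ |s.re| ≤ 5 * ra T (2 ^ i * n)) :=
    ⟨Nat.find hex, Nat.find_spec hex, fun i hi => Nat.find_min hex hi⟩
  have hjJ : j ≤ J := by
    by_contra hc
    exact hmin J (by omega) ⟨hj, hc2⟩
  have hne : j ≠ j0 := by
    rintro rfl
    linarith
  obtain ⟨i, rfl⟩ : ∃ i, j = i + 1 := ⟨j - 1, by omega⟩
  have hi : 5 * ra T (2 ^ i * n) < |s.re| := by
    by_contra hc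
    push Not at hc
    exact hmin i (by omega) ⟨by omega, hc⟩
  have hn' : (1 : ℝ) ≤ n := by exact_mod_cast hn
  have hr : 0 < ra T (2 ^ (i + 1) * n) := ra_pos hT (by positivity)
  have hri : ra T (2 ^ i * n) = ra T (2 ^ (i + 1) * n) / 2 := by
    unfold ra; rw [pow_succ]; ring
  obtain ⟨t', ht', hNN⟩ := hLoc (i + 1) hj1 hjJ
  obtain ⟨e1, e2, e3⟩ := coord (t' := t') (s := s) hr
  refine h3 (2 ^ (i + 1) * n) n _ hn ?_ hNN ((s - I * t') / (ra T (2 ^ (i + 1) * n) : ℝ)) ?_ ?_ ?_ ?_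
  · have : (1 : ℝ) ≤ 2 ^ (i + 1) := one_le_pow₀ (by norm_num)
    nlinarith
  · rw [e2, abs_div, abs_of_pos hr, le_div_iff₀ hr]
    rw [hri] at hi
    linarith
  · rw [e2, abs_div, abs_of_pos hr, div_le_iff₀ hr]
    exact hj2
  · rw [e3, abs_div, abs_of_pos hr, div_le_iff₀ hr]
    linarith
  · rw [iter_comp hF, e1, hs, mul_zero]

theorem ptb (hF : Differentiable ℂ F) (h1 : PtA F) (h2 : SB1a) (h3 : SB1b) : PtB F := by
  obtain ⟨ηA, hηA, hA⟩ := h1
  obtain ⟨ηa, na, hηa, ha⟩ := h2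
  obtain ⟨ηb, nb, hηb, hb⟩ := h3
  refine ⟨min ηA (min ηa ηb), max 1 (max na nb), lt_min hηA (lt_min hηa hηb), le_max_left _ _, ?_⟩
  intro T n J s hT hn hbad hLoc
  have hn1 : 1 ≤ n := (le_max_left _ _).trans hn
  have hna : na ≤ n := ((le_max_left _ _).trans (le_max_right _ _)).trans hn
  have hnb : nb ≤ n := ((le_max_right _ _).trans (le_max_right _ _)).trans hn
  have hη1 : min ηA (min ηa ηb) ≤ ηA := min_le_left _ _
  have hη2 : min ηA (min ηa ηb) ≤ ηa := (min_le_right _ _).trans (min_le_left _ _)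
  have hη3 : min ηA (min ηa ηb) ≤ ηb := (min_le_right _ _).trans (min_le_right _ _)
  rcases hA T n J 0 s hT hn1 (Nat.zero_le _) hbad.1 (Loc_mono hLoc hη1) with h | h
  · exfalso
    have hn' : (1 : ℝ) ≤ n := by exact_mod_cast hn1
    obtain ⟨t', ht', hNN⟩ := hLoc 0 le_rfl (Nat.zero_le _)
    simp only [pow_zero, one_mul] at h ht' hNN
    have hr : 0 < ra T n := ra_pos hT (by positivity)
    obtain ⟨e1, e2, e3⟩ := coord (t' := t') (s := s) hr
    have hr' : ((ra T n : ℝ) : ℂ) ≠ 0 := by exact_mod_cast hr.ne'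
    have hz0 : iteratedDeriv n (fun z => F (I * t' + (ra T n : ℝ) * z))
        ((s - I * t') / (ra T n : ℝ)) = 0 := by
      rw [iter_comp hF, e1, hbad.1, mul_zero]
    have him : |((s - I * t') / ((ra T n : ℝ) : ℂ)).im| ≤ 1 / 100 := by
      rw [e3, abs_div, abs_of_pos hr, div_le_iff₀ hr]
      linarith
    have hre : |((s - I * t') / ((ra T n : ℝ) : ℂ)).re| ≤ 5 := by
      rw [e2, abs_div, abs_of_pos hr, div_le_iff₀ hr]
      exact h
    rcases le_or_gt (1 / 100) |((s - I * t') / ((ra T n : ℝ) : ℂ)).re| with h4 | h4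
    · exact ha n _ hna (NN_mono hNN hη2 (by positivity)) _ h4 hre him hz0
    · obtain ⟨h5, h6⟩ := hb n _ hnb (NN_mono hNN hη3 (by positivity)) _ h4.le him hz0
      rw [e2, div_eq_zero_iff] at h5
      rw [iter_comp hF, e1] at h6
      rcases hbad.2 with h7 | h7
      · exact h7 (h5.resolve_right hr.ne')
      · exact h6 (by rw [h7, mul_zero])
  · exact h

end Pool.Agent.Y671.LD
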