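import Pool.Agent.Y671.LD.Cir
import Pool.Agent.Y671.LD.Pt

set_option autoImplicit false

/-!
# Zeros of the derivatives in unit windows
-/

namespace Pool.Agent.Y671.LD

open Complex Filter Topology MeasureTheory Set Metric
open Pool.Agent.H24R2.DZ (ra NN SB2)

/-- Jensen's inequality for finite sets of zeros -/
theorem jcount0 {f : ℂ → ℂ} (hf : Differentiable ℂ f) {c : ℂ} {r R M : ℝ} (hr : 0 < r) (hrR : r < R)
    (hM1 : 1 ≤ M) (hc : f c ≠ 0) (hM : ∀ z, ‖z - c‖ ≤ R → ‖f z‖ ≤ M) (S : Finset ℂ)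
    (hS : ∀ s ∈ S, ‖s - c‖ ≤ r) :
    ∑ s ∈ S, (analyticOrderNatAt f s : ℝ) ≤ Real.log (M / ‖f c‖) / Real.log (R / r) := by
  classical
  have hR : 0 < R := hr.trans hrR
  have habs : |R| = R := abs_of_pos hR
  have habr : |r| = r := abs_of_pos hr
  have han : ∀ ρ : ℝ, AnalyticOnNhd ℂ f (closedBall c ρ) := fun ρ z _ => hf.analyticAt z
  have h1 := AnalyticOnNhd.sum_divisor_le (c := c) (r := r) (R := R) (M := M) (f := f)
    (by rw [habr]; exact hr) (by rw [habr, habs]; exact hrR) hM1 (han _) hc (by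
      intro z hz
      rw [habs, mem_sphere_iff_norm] at hz
      exact hM z hz.le)
  rw [habr] at h1
  refine le_trans ?_ h1
  have hdiv : ∀ u ∈ closedBall c r, MeromorphicOn.divisor f (closedBall c r) u =
      (analyticOrderNatAt f u : ℤ) := by
    intro u hu
    rw [MeromorphicOn.AnalyticOnNhd.divisor_apply (han r) hu]
    unfold analyticOrderNatAt
    cases h : analyticOrderAt f u with
    | top => simp
    | coe n => simp
  have hfin : (MeromorphicOn.divisor f (closedBall c r)).support.Finite :=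
    (MeromorphicOn.divisor f (closedBall c r)).finiteSupport (isCompact_closedBall c r)
  rw [finsum_eq_sum_of_support_subset (s := S ∪ hfin.toFinset)]
  · push_cast
    have h2 : ∑ s ∈ S, (analyticOrderNatAt f s : ℝ) =
        ∑ s ∈ S, ((MeromorphicOn.divisor f (closedBall c r) s : ℤ) : ℝ) := by
      refine Finset.sum_congr rfl fun s hs => ?_
      rw [hdiv s (by rw [mem_closedBall_iff_norm]; exact hS s hs)]
      push_cast
      rfl
    rw [h2]
    refine Finset.sum_le_sum_of_subset_of_nonneg Finset.subset_union_left ?_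
    intro u _ _
    by_cases hu : u ∈ closedBall c r
    · rw [hdiv u hu]
      exact_mod_cast Nat.zero_le _
    · rw [Function.locallyFinsuppWithin.apply_eq_zero_of_notMem _ hu]
      simp
  · intro u hu
    rw [Finset.coe_union, Set.Finite.coe_toFinset]
    exact Or.inr hu

theorem order_const_mul {f : ℂ → ℂ} {a : ℂ} (ha : a ≠ 0) (s : ℂ) (hf : AnalyticAt ℂ f s) :
    analyticOrderNatAt (fun z => a * f z) s = analyticOrderNatAt f s := by
  unfold analyticOrderNatAt
  congr 1
  have h1 : AnalyticAt ℂ (fun _ : ℂ => a) s := analyticAt_const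
  have h2 := analyticOrderAt_mul h1 hf
  have h3 : analyticOrderAt (fun _ : ℂ => a) s = 0 := h1.analyticOrderAt_eq_zero.2 ha
  rw [h3, zero_add] at h2
  exact h2

/-- Jensen's inequality, scale invariant -/
theorem jcount {f : ℂ → ℂ} (hf : Differentiable ℂ f) {c : ℂ} {r R A : ℝ} (hr : 0 < r) (hrR : r < R)
    (hc : f c ≠ 0) (hM : ∀ z, ‖z - c‖ ≤ R → ‖f z‖ ≤ Real.exp A * ‖f c‖) (S : Finset ℂ)
    (hS : ∀ s ∈ S, ‖s - c‖ ≤ r) :
    ∑ s ∈ S, (analyticOrderNatAt f s : ℝ) ≤ A / Real.log (R / r) := by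
  have hcn : 0 < ‖f c‖ := norm_pos_iff.2 hc
  have hR : 0 < R := hr.trans hrR
  have hA : 1 ≤ Real.exp A := by
    have h := hM c (by simpa using hR.le)
    by_contra hlt
    push Not at hlt
    nlinarith
  have hg : Differentiable ℂ (fun z => (f c)⁻¹ * f z) := by fun_prop
  have h := jcount0 hg hr hrR (M := Real.exp A) hA (c := c) (by
    simp only [ne_eq, mul_eq_zero, inv_eq_zero, or_self]; exact hc) (by
    intro z hz
    rw [norm_mul, norm_inv, inv_mul_le_iff₀ hcn, mul_comm]
    exact hM z hz) S hS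
  rw [inv_mul_cancel₀ hc, norm_one, div_one, Real.log_exp] at h
  refine le_trans (le_of_eq ?_) h
  refine Finset.sum_congr rfl fun s _ => ?_
  rw [order_const_mul (inv_ne_zero hc) s (hf.analyticAt s)]


theorem iter_diff {F : ℂ → ℂ} (hF : Differentiable ℂ F) (m : ℕ) : Differentiable ℂ (iteratedDeriv m F) :=
  (hF.contDiff (n := ((m + 1 : ℕ) : WithTop ℕ∞))).differentiable_iteratedDeriv m
    (by exact_mod_cast Nat.lt_succ_self m)

/-- Zeros in unit windows. -/
def Unt (F : ℂ → ℂ) : Prop := ∀ K : ℝ, 1 ≤ K → ∃ C T0 : ℝ, 0 < C ∧ 2 ≤ T0 ∧ ∀ (t : ℝ) (n : ℕ), T0 ≤ t →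
  (n : ℝ) ≤ K * Real.log t →
  ∀ S : Finset ℂ, (∀ s ∈ S, |s.im - t| ≤ 1 ∧ iteratedDeriv n F s = 0) →
  ∑ s ∈ S, (analyticOrderNatAt (iteratedDeriv n F) s : ℝ) ≤ C * Real.log t

theorem unit_of {B : ℝ} (hB0 : 0 < B) {F : ℂ → ℂ} (hF : Differentiable ℂ F)
    (hX : ∃ h : ℝ → ℝ, (∀ t, 0 < h t) ∧ ∀ R : ℝ, ∃ K T0 : ℝ, 1 ≤ T0 ∧ ∀ (t : ℝ) (u : ℂ), T0 ≤ t → ‖u‖ ≤ R →
      ‖F (I * t + u)‖ ≤ Real.exp (K * Real.log t) * h t ∧
      (10 * B ≤ u.re → F (I * t + u) ≠ 0 ∧
        Real.exp (-(K * Real.log t)) * h t ≤ ‖F (I * t + u)‖ ∧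
        ‖logDeriv F (I * t + u) - ((Real.log t / 2 : ℝ) : ℂ)‖ ≤ K))
    (hSt : Strip F B) (h : SB2) : Unt F := by
  obtain ⟨η, hη, hB⟩ := h
  obtain ⟨hs, hs0, hX⟩ := hX
  intro K' hK'
  obtain ⟨R0, hR0⟩ : ∃ R0 : ℝ, R0 = 3 * K' + 20 * B := ⟨_, rfl⟩
  have hR0p : 0 < R0 := by rw [hR0]; positivity
  obtain ⟨Rb, hRb⟩ : ∃ Rb : ℝ, Rb = 2 * R0 + B + 10 + 3 * K' := ⟨_, rfl⟩
  obtain ⟨K0, T0, hT0, hX⟩ := hX Rb
  set K : ℝ := |K0| + 1 with hKdef
  have hK1 : 1 ≤ K := by
    have := abs_nonneg K0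
    linarith
  have hKK : K0 ≤ K := by
    have := le_abs_self K0
    linarith
  obtain ⟨E, hE⟩ : ∃ E : ℝ, E = 1 + 2 * K' ^ 2 := ⟨_, rfl⟩
  have hE1 : 1 ≤ E := by rw [hE]; nlinarith
  have hrr : 0 < R0 + B + 1 := by positivity
  have hlr : 0 < Real.log ((R0 + B + 3) / (R0 + B + 1)) := Real.log_pos (by
    rw [lt_div_iff₀ hrr]; linarith)
  refine ⟨(E + 2 * K) / Real.log ((R0 + B + 3) / (R0 + B + 1)), max T0 (Real.exp (2 * K / η + 2)),
    by positivity, ?_, ?_⟩
  · refine le_trans ?_ (le_max_right _ _)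
    have h1 : (2 : ℝ) ≤ 2 * K / η + 2 := by
      have : 0 ≤ 2 * K / η := by positivity
      linarith
    have h2 := Real.add_one_le_exp (2 * K / η + 2)
    linarith
  intro t n ht hn S hS
  have htT : T0 ≤ t := (le_max_left _ _).trans ht
  have ht1 : 1 ≤ t := hT0.trans htT
  have htpos : 0 < t := by linarith
  have hlog : 2 * K / η + 2 ≤ Real.log t := by
    rw [Real.le_log_iff_exp_le htpos]
    exact (le_max_right _ _).trans ht
  have hL0 : 0 ≤ 2 * K / η := by positivity
  set L : ℝ := Real.log t with hLdef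
  have hL2 : 2 ≤ L := by linarith
  have hLK : K ≤ L / 2 * η := by
    have h1 : 2 * K / η ≤ L := by linarith
    rw [div_le_iff₀ hη] at h1
    linarith
  -- the local facts
  obtain ⟨p, hp⟩ : ∃ p : ℂ, p = I * t + (R0 : ℂ) := ⟨_, rfl⟩
  have hup : ∀ u : ℂ, ‖u‖ ≤ Rb → ‖F (I * t + u)‖ ≤ Real.exp (K * L) * hs t := by
    intro u hu
    refine (hX t u htT hu).1.trans ?_
    have := (hs0 t).le
    gcongr
  have hlow : ∀ u : ℂ, ‖u‖ ≤ Rb → 10 * B ≤ u.re → F (I * t + u) ≠ 0 ∧
      hs t ≤ Real.exp (K * L) * ‖F (I * t + u)‖ ∧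
      ‖logDeriv F (I * t + u) - ((L / 2 : ℝ) : ℂ)‖ ≤ K := by
    intro u hu hre
    obtain ⟨h1, h2, h3⟩ := (hX t u htT hu).2 hre
    refine ⟨h1, ?_, h3.trans hKK⟩
    have h4 : hs t ≤ Real.exp (K0 * L) * ‖F (I * t + u)‖ := by
      calc hs t = Real.exp (K0 * L) * (Real.exp (-(K0 * L)) * hs t) := by
            rw [← mul_assoc, ← Real.exp_add, add_neg_cancel, Real.exp_zero, one_mul]
        _ ≤ Real.exp (K0 * L) * ‖F (I * t + u)‖ := by gcongr
    refine h4.trans ?_
    gcongr
  have hR0n : ‖(R0 : ℂ)‖ = R0 := by rw [Complex.norm_real, Real.norm_of_nonneg hR0p.le]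
  have hpX := hlow R0 (by rw [hR0n, hRb]; linarith) (by rw [Complex.ofReal_re, hR0]; linarith)
  rw [← hp] at hpX
  have hXp : F p ≠ 0 := hpX.1
  have hXp0 : 0 < ‖F p‖ := norm_pos_iff.2 hXp
  have hfac : (0 : ℝ) < (n.factorial : ℝ) := by exact_mod_cast n.factorial_pos
  -- lower bound at `p`
  have hder : (n.factorial : ℝ) * ‖F p‖ ≤ Real.exp (E * L) * ‖iteratedDeriv n F p‖ := by
    rcases Nat.eq_zero_or_pos n with rfl | hn1
    · simp only [Nat.factorial_zero, Nat.cast_one, one_mul, iteratedDeriv_zero]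
      have : 1 ≤ Real.exp (E * L) := Real.one_le_exp (by positivity)
      nlinarith
    · have hnr : (1 : ℝ) ≤ n := by exact_mod_cast hn1
      set ρ : ℝ := n / (L / 2) with hρ
      have hρ0 : 0 < ρ := by positivity
      have hρ120 : ρ ≤ 2 * K' := by
        rw [hρ, div_le_iff₀ (by positivity)]
        linarith
      have hkey := hB n 0 (fun w => F (p + (ρ : ℂ) * w)) hn1 (by
        intro w hw
        rw [mem_ball_zero_iff] at hw
        have hw1 : ‖(ρ : ℂ) * w‖ ≤ 3 * K' := by
          rw [norm_mul, Complex.norm_real, Real.norm_eq_abs, abs_of_pos hρ0]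
          nlinarith [norm_nonneg w]
        have hre : |((ρ : ℂ) * w).re| ≤ 3 * K' := (Complex.abs_re_le_norm _).trans hw1
        have h1 := hlow (R0 + (ρ : ℂ) * w) (by
          have := norm_add_le (R0 : ℂ) ((ρ : ℂ) * w)
          rw [hR0n] at this
          rw [hRb]
          linarith) (by
          rw [Complex.add_re, Complex.ofReal_re, hR0]
          have := (abs_le.1 hre).1
          linarith)
        have heq : I * (t : ℂ) + ((R0 : ℂ) + (ρ : ℂ) * w) = p + ρ * w := by rw [hp]; ring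
        rw [heq] at h1
        have hlin : HasDerivAt (fun w : ℂ => p + (ρ : ℂ) * w) ρ w := by
          simpa using ((hasDerivAt_id w).const_mul (ρ : ℂ)).const_add p
        have hd : HasDerivAt (fun w => F (p + (ρ : ℂ) * w)) (deriv F (p + ρ * w) * ρ) w :=
          HasDerivAt.comp w (hF _).hasDerivAt hlin
        refine ⟨hd.differentiableAt, h1.1, ?_⟩
        have hld : logDeriv (fun w => F (p + (ρ : ℂ) * w)) w = logDeriv F (p + ρ * w) * ρ := by
          rw [logDeriv_apply, hd.deriv, logDeriv_apply]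
          ring
        have hn2 : (n : ℂ) = ((L / 2 : ℝ) : ℂ) * (ρ : ℂ) := by
          rw [← Complex.ofReal_mul, hρ, mul_div_cancel₀ _ (by positivity : (L / 2 : ℝ) ≠ 0)]
          simp
        rw [hld, hn2, ← sub_mul, norm_mul, Complex.norm_real, Real.norm_eq_abs, abs_of_pos hρ0]
        have h5 : ‖logDeriv F (p + ρ * w) - ((L / 2 : ℝ) : ℂ)‖ * ρ ≤ K * ρ := by
          gcongr
          exact h1.2.2
        refine h5.trans ?_
        have h6 : (n : ℝ) = L / 2 * ρ := by
          rw [hρ, mul_div_cancel₀ _ (by positivity : (L / 2 : ℝ) ≠ 0)]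
        rw [h6]
        nlinarith)
      rw [iter_comp hF] at hkey
      simp only [mul_zero, add_zero] at hkey
      rw [norm_mul, norm_pow, Complex.norm_real, Real.norm_eq_abs, abs_of_pos hρ0] at hkey
      refine hkey.trans ?_
      rw [← mul_assoc]
      gcongr
      have h2e : (2 : ℝ) ≤ Real.exp 1 := by
        have h1 := Real.exp_one_gt_d9
        linarith
      have hre : ρ ≤ Real.exp (2 * K') := by
        have := Real.add_one_le_exp (2 * K')
        linarith
      calc 2 * ρ ^ n ≤ Real.exp 1 * (Real.exp (2 * K')) ^ n := by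
            gcongr
        _ = Real.exp (1 + n * (2 * K')) := by rw [← Real.exp_nat_mul, ← Real.exp_add]
        _ ≤ Real.exp (E * L) := by
            apply Real.exp_le_exp.2
            have h1 : (n : ℝ) * (2 * K') ≤ (K' * L) * (2 * K') := by gcongr
            rw [hE]
            nlinarith
  have hne : iteratedDeriv n F p ≠ 0 := by
    intro h0
    rw [h0, norm_zero, mul_zero] at hder
    have : 0 < (n.factorial : ℝ) * ‖F p‖ := by positivity
    linarith
  have hdn : Differentiable ℂ (iteratedDeriv n F) := iter_diff hF n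
  have hbound : ∀ z, ‖z - p‖ ≤ R0 + B + 3 → ‖iteratedDeriv n F z‖ ≤
      Real.exp ((E + 2 * K) * L) * ‖iteratedDeriv n F p‖ := by
    intro z hz
    have hc := Complex.norm_iteratedDeriv_le_of_forall_mem_sphere_norm_le n (c := z) (R := 1)
      (C := Real.exp (K * L) * hs t) (f := F) one_pos hF.diffContOnCl (by
        intro w hw
        rw [mem_sphere_iff_norm] at hw
        have hw2 : w = I * t + (w - I * t) := by ring
        rw [hw2]
        refine hup _ ?_
        have hw3 : w - I * t = (w - z) + (z - p) + R0 := by rw [hp]; ring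
        rw [hw3]
        have h1 := norm_add_le ((w - z) + (z - p)) (R0 : ℂ)
        have h2 := norm_add_le (w - z) (z - p)
        rw [hR0n] at h1
        rw [hRb]
        linarith)
    rw [one_pow, div_one] at hc
    refine hc.trans ?_
    calc (n.factorial : ℝ) * (Real.exp (K * L) * hs t)
        ≤ (n.factorial : ℝ) * (Real.exp (K * L) * (Real.exp (K * L) * ‖F p‖)) := by
          gcongr
          exact hpX.2.1
      _ = Real.exp (2 * K * L) * ((n.factorial : ℝ) * ‖F p‖) := by
          have : Real.exp (2 * K * L) = Real.exp (K * L) * Real.exp (K * L) := by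
            rw [← Real.exp_add]; congr 1; ring
          rw [this]; ring
      _ ≤ Real.exp (2 * K * L) * (Real.exp (E * L) * ‖iteratedDeriv n F p‖) := by
          gcongr
      _ = _ := by
          rw [← mul_assoc, ← Real.exp_add]
          congr 2
          ring
  have := jcount hdn (c := p) (r := R0 + B + 1) (R := R0 + B + 3) hrr (by linarith) hne hbound S (by
    intro s hs
    obtain ⟨h1, h2⟩ := hS s hs
    have h3 := hSt n s h2
    have h4 : ‖s - p‖ ≤ |(s - p).re| + |(s - p).im| := Complex.norm_le_abs_re_add_abs_im _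
    have h5 : (s - p).re = s.re - R0 := by rw [hp]; simp
    have h6 : (s - p).im = s.im - t := by rw [hp]; simp
    rw [h5, h6] at h4
    have h7 : |s.re - R0| ≤ |s.re| + R0 := by
      have := abs_sub s.re R0
      rw [abs_of_pos hR0p] at this
      exact this
    linarith)
  refine this.trans (le_of_eq ?_)
  ring

end Pool.Agent.Y671.LD
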