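import Pool.Agent.Y671.LD.Cov
import Pool.Agent.H24R2.JP.ParCirc

set_option autoImplicit false

/-!
# Jensen circles: general lemmas (copied from the starting module `Pool.Agent.H24R2.DZ.Cir`, where they are
stated next to the special case of the zeta function)
-/

namespace Pool.Agent.Y671.LD

open Complex Filter Topology MeasureTheory Set Polynomial

namespace CirAux

/-- locally uniform convergence of the derivatives of polynomials -/
theorem tlu_deriv {Q : ℕ → ℂ[X]} {g : ℂ → ℂ}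
    (h : TendstoLocallyUniformly (fun (N : ℕ) (z : ℂ) => (Q N).eval z) g atTop) :
    TendstoLocallyUniformly (fun (N : ℕ) (z : ℂ) => (derivative (Q N)).eval z) (deriv g) atTop := by
  rw [← tendstoLocallyUniformlyOn_univ] at h ⊢
  have h1 := h.deriv (Eventually.of_forall fun N => (Q N).differentiable.differentiableOn) isOpen_univ
  have h2 : (deriv ∘ fun (N : ℕ) (z : ℂ) => (Q N).eval z) =
      fun (N : ℕ) (z : ℂ) => (derivative (Q N)).eval z := by
    funext N z
    rw [Function.comp_apply, Polynomial.deriv]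
  rwa [h2] at h1

theorem strip_convex : Convex ℝ {z : ℂ | |z.re| ≤ 1 / 2} := by
  have : {z : ℂ | |z.re| ≤ 1 / 2} = Complex.reLm ⁻¹' (Set.Icc (-(1 / 2)) (1 / 2)) := by
    ext z
    simp only [mem_ofPred_eq, mem_preimage, mem_Icc, abs_le]
    rfl
  rw [this]
  exact (convex_Icc _ _).linear_preimage _

theorem gl_strip (Q : ℂ[X]) (hd : derivative Q ≠ 0) (h : ∀ z : ℂ, Q.IsRoot z → |z.re| ≤ 1 / 2)
    (z : ℂ) (hz : (derivative Q).IsRoot z) : |z.re| ≤ 1 / 2 := by
  have hd0 : 0 < Q.degree := by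
    by_contra hcon
    push Not at hcon
    apply hd
    rw [eq_C_of_degree_le_zero hcon, derivative_C]
  have hmem : z ∈ Q.derivative.rootSet ℂ := by
    rw [mem_rootSet]
    exact ⟨hd, by simpa [IsRoot] using hz⟩
  have h1 := rootSet_derivative_subset_convexHull_rootSet hd0 hmem
  refine convexHull_min ?_ strip_convex h1
  intro x hx
  rw [mem_rootSet] at hx
  apply h x
  simpa [IsRoot] using hx.2

/-- the reflection `z ↦ -conj z` -/
theorem symm_deriv {g : ℂ → ℂ} (hg : Differentiable ℂ g) (c : ℂ)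
    (hs : ∀ z, g (-((starRingEnd ℂ) z)) = c * (starRingEnd ℂ) (g z)) (z : ℂ) :
    deriv g (-((starRingEnd ℂ) z)) = -c * (starRingEnd ℂ) (deriv g z) := by
  have h1 : HasDerivAt (fun x : ℂ => g x) (deriv g z) z := (hg z).hasDerivAt
  have h2 : HasDerivAt ((starRingEnd ℂ) ∘ g ∘ (starRingEnd ℂ)) ((starRingEnd ℂ) (deriv g z))
      ((starRingEnd ℂ) z) := h1.conj_conj
  have h3 : HasDerivAt (fun x : ℂ => g (-x)) (deriv g (-((starRingEnd ℂ) z)) * (-1))
      ((starRingEnd ℂ) z) :=
    HasDerivAt.comp ((starRingEnd ℂ) z) (hg _).hasDerivAt (hasDerivAt_neg _)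
  have h4 : (fun x : ℂ => g (-x)) = fun x => c * ((starRingEnd ℂ) ∘ g ∘ (starRingEnd ℂ)) x := by
    funext x
    have := hs ((starRingEnd ℂ) x)
    rw [Complex.conj_conj] at this
    rw [this]; rfl
  rw [h4] at h3
  have h5 := (h2.const_mul c).unique h3
  linear_combination h5

theorem symm_iter {F : ℂ → ℂ} (hF : Differentiable ℂ F)
    (hsy : ∀ z, F (-((starRingEnd ℂ) z)) = (starRingEnd ℂ) (F z)) (n : ℕ) :
    ∀ z, iteratedDeriv n F (-((starRingEnd ℂ) z)) = (-1) ^ n * (starRingEnd ℂ) (iteratedDeriv n F z) := by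
  induction n with
  | zero =>
    intro z
    simp only [iteratedDeriv_zero, pow_zero, one_mul]
    exact hsy z
  | succ n ih =>
    intro z
    have hd : Differentiable ℂ (iteratedDeriv n F) :=
      Pool.Agent.H24R2.JP.ParCircAux.diff_iter hF n
    rw [iteratedDeriv_succ, symm_deriv hd ((-1) ^ n) ih z]
    ring

/-- the compactness argument -/
theorem gap {g : ℂ → ℂ} (hg : Continuous g) (w : ℂ)
    (hJ : ∀ z : ℂ, |z.re| ≤ 1 / 2 → w.re ^ 2 + (w.im - z.im) ^ 2 ≤ z.re ^ 2 → g z ≠ 0) :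
    ∃ ε : ℝ, 0 < ε ∧ ε ≤ 1 ∧ ∀ z : ℂ, |z.re| ≤ 1 / 2 → w.re ^ 2 + (w.im - z.im) ^ 2 ≤ z.re ^ 2 + ε →
      g z ≠ 0 := by
  set K : Set ℂ := (Metric.closedBall w (|w.re| + 3)) ∩ ({z : ℂ | |z.re| ≤ 1 / 2} ∩ {z | g z = 0}) with hK
  have hKc : IsCompact K := by
    apply (isCompact_closedBall _ _).inter_right
    apply IsClosed.inter
    · exact isClosed_le (by fun_prop) continuous_const
    · exact isClosed_eq hg continuous_const
  set φ : ℂ → ℝ := fun z => w.re ^ 2 + (w.im - z.im) ^ 2 - z.re ^ 2 with hφ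
  have hφc : ContinuousOn φ K := by
    apply Continuous.continuousOn
    fun_prop
  have hpos : ∀ z ∈ K, 0 < φ z := by
    intro z hz
    by_contra hc
    push Not at hc
    exact hJ z hz.2.1 (by simp only [hφ] at hc; linarith) hz.2.2
  have hex : ∃ ε : ℝ, 0 < ε ∧ ∀ z ∈ K, ε ≤ φ z := by
    rcases K.eq_empty_or_nonempty with h0 | h0
    · exact ⟨1, one_pos, fun z hz => by rw [h0] at hz; exact absurd hz (Set.notMem_empty z)⟩
    · obtain ⟨z0, hz0, hmin⟩ := hKc.exists_isMinOn h0 hφc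
      exact ⟨φ z0, hpos z0 hz0, fun z hz => hmin hz⟩
  obtain ⟨ε, hε, hmin⟩ := hex
  refine ⟨min (ε / 2) 1, by positivity, min_le_right _ _, ?_⟩
  intro z hz1 hz2 hz3
  have hz1' := abs_le.1 hz1
  have hm1 : min (ε / 2) 1 ≤ ε / 2 := min_le_left _ _
  have hm2 : min (ε / 2) 1 ≤ 1 := min_le_right _ _
  have hre2 : z.re ^ 2 ≤ 1 / 4 := by nlinarith
  have him : (w.im - z.im) ^ 2 ≤ 5 / 4 := by nlinarith [sq_nonneg w.re]
  have himb : |w.im - z.im| ≤ 2 := abs_le_of_sq_le_sq (by nlinarith) (by norm_num)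
  have hzK : z ∈ K := by
    refine ⟨?_, hz1, hz3⟩
    rw [Metric.mem_closedBall, dist_eq_norm]
    calc ‖z - w‖ ≤ |(z - w).re| + |(z - w).im| := Complex.norm_le_abs_re_add_abs_im _
      _ ≤ (1 / 2 + |w.re|) + 2 := by
          apply add_le_add
          · rw [Complex.sub_re]
            exact (abs_sub _ _).trans (add_le_add hz1 le_rfl)
          · rw [Complex.sub_im, abs_sub_comm]; exact himb
      _ ≤ |w.re| + 3 := by linarith
  have h1 := hmin z hzK
  simp only [hφ] at h1
  linarith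

/-- termwise positivity -/
theorem term_nonneg (u v : ℝ) (z : ℂ) (h : z.re ^ 2 < u ^ 2 + (v - z.im) ^ 2) :
    0 ≤ u * ((1 / ((⟨u, v⟩ : ℂ) - z)).re - (1 / ((⟨-u, v⟩ : ℂ) - z)).re) := by
  have e1 : (1 / ((⟨u, v⟩ : ℂ) - z)).re = (u - z.re) / ((u - z.re) ^ 2 + (v - z.im) ^ 2) := by
    rw [one_div, Complex.inv_re, Complex.normSq_apply]
    simp only [Complex.sub_re, Complex.sub_im]
    congr 1; ring
  have e2 : (1 / ((⟨-u, v⟩ : ℂ) - z)).re = (-u - z.re) / ((u + z.re) ^ 2 + (v - z.im) ^ 2) := by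
    rw [one_div, Complex.inv_re, Complex.normSq_apply]
    simp only [Complex.sub_re, Complex.sub_im]
    congr 1; ring
  have hA : 0 < (u - z.re) ^ 2 + (v - z.im) ^ 2 := by
    by_contra hc
    push Not at hc
    have h1 : (u - z.re) ^ 2 = 0 := le_antisymm (by nlinarith [sq_nonneg (v - z.im)]) (sq_nonneg _)
    have h2 : (v - z.im) ^ 2 = 0 := le_antisymm (by nlinarith [sq_nonneg (u - z.re)]) (sq_nonneg _)
    have h3 : u - z.re = 0 := by simpa using h1
    have h4 : u = z.re := by linarith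
    rw [h2, h4] at h
    linarith
  have hB : 0 < (u + z.re) ^ 2 + (v - z.im) ^ 2 := by
    by_contra hc
    push Not at hc
    have h1 : (u + z.re) ^ 2 = 0 := le_antisymm (by nlinarith [sq_nonneg (v - z.im)]) (sq_nonneg _)
    have h2 : (v - z.im) ^ 2 = 0 := le_antisymm (by nlinarith [sq_nonneg (u + z.re)]) (sq_nonneg _)
    have h3 : u + z.re = 0 := by simpa using h1
    have h4 : u = -z.re := by linarith
    rw [h2, h4] at h
    nlinarith
  rw [e1, e2]
  have e3 : u * ((u - z.re) / ((u - z.re) ^ 2 + (v - z.im) ^ 2) -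
      (-u - z.re) / ((u + z.re) ^ 2 + (v - z.im) ^ 2)) =
      2 * u ^ 2 * (u ^ 2 + (v - z.im) ^ 2 - z.re ^ 2) /
        (((u - z.re) ^ 2 + (v - z.im) ^ 2) * ((u + z.re) ^ 2 + (v - z.im) ^ 2)) := by
    field_simp
    ring
  rw [e3]
  apply div_nonneg
  · apply mul_nonneg (by positivity)
    linarith
  · positivity

theorem multiset_re_sum (s : Multiset ℂ) (f : ℂ → ℂ) : ((s.map f).sum).re = (s.map fun z => (f z).re).sum := by
  induction s using Multiset.induction_on with
  | empty => simp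
  | cons a s ih => simp [ih]

theorem multiset_nonneg (s : Multiset ℂ) (f : ℂ → ℝ) (h : ∀ z ∈ s, 0 ≤ f z) : 0 ≤ (s.map f).sum := by
  apply Multiset.sum_nonneg
  intro x hx
  rw [Multiset.mem_map] at hx
  obtain ⟨z, hz, rfl⟩ := hx
  exact h z hz

/-- one polynomial -/
theorem poly_nonneg (Q : ℂ[X]) (u v : ℝ) (hQ : Q ≠ 0)
    (h : ∀ z : ℂ, Q.IsRoot z → z.re ^ 2 < u ^ 2 + (v - z.im) ^ 2) :
    0 ≤ u * (((derivative Q).eval (⟨u, v⟩ : ℂ) / Q.eval (⟨u, v⟩ : ℂ)).re -
      ((derivative Q).eval (⟨-u, v⟩ : ℂ) / Q.eval (⟨-u, v⟩ : ℂ)).re) := by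
  have h1 : Q.eval (⟨u, v⟩ : ℂ) ≠ 0 := by
    intro h0
    have := h _ h0
    simp at this
  have h2 : Q.eval (⟨-u, v⟩ : ℂ) ≠ 0 := by
    intro h0
    have := h _ h0
    simp at this
  have hs : Q.Splits := IsAlgClosed.splits Q
  rw [hs.eval_derivative_div_eval_of_ne_zero h1, hs.eval_derivative_div_eval_of_ne_zero h2,
    multiset_re_sum, multiset_re_sum, ← Multiset.sum_map_sub, ← Multiset.sum_map_mul_left]
  apply multiset_nonneg
  intro z hz
  apply term_nonneg
  apply h
  exact (mem_roots hQ).1 hz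

/-- Lemma M: the sign of the real part of the logarithmic derivative. -/
theorem signM {g : ℂ → ℂ} (hg : Differentiable ℂ g) (c : ℂ) (hc : ‖c‖ = 1)
    (hs : ∀ z, g (-((starRingEnd ℂ) z)) = c * (starRingEnd ℂ) (g z))
    {Q : ℕ → ℂ[X]} (hQ : ∀ᶠ N in atTop, Q N ≠ 0 ∧ ∀ z : ℂ, (Q N).IsRoot z → |z.re| ≤ 1 / 2)
    (hlim : TendstoLocallyUniformly (fun (N : ℕ) (z : ℂ) => (Q N).eval z) g atTop)
    (w : ℂ) (hw : g w ≠ 0)
    (hJ : ∀ z : ℂ, |z.re| ≤ 1 / 2 → w.re ^ 2 + (w.im - z.im) ^ 2 ≤ z.re ^ 2 → g z ≠ 0) :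
    ∀ᶠ w' in 𝓝 w, 0 ≤ w'.re * (deriv g w' / g w').re := by
  obtain ⟨ε, hε, hε1, hJε⟩ := gap hg.continuous w hJ
  -- no zeros of the approximants on the compact set
  set S : Set ℂ := {z : ℂ | |z.re| ≤ 1 / 2 ∧ w.re ^ 2 + (w.im - z.im) ^ 2 ≤ z.re ^ 2 + ε} with hS
  have hSc : IsCompact S := by
    apply (isCompact_closedBall w (|w.re| + 3)).of_isClosed_subset
    · have c1 : Continuous fun z : ℂ => |z.re| := by fun_prop
      have c2 : Continuous fun z : ℂ => w.re ^ 2 + (w.im - z.im) ^ 2 := by fun_prop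
      have c3 : Continuous fun z : ℂ => z.re ^ 2 + ε := by fun_prop
      exact (isClosed_le c1 continuous_const).inter (isClosed_le c2 c3)
    · intro z hz
      obtain ⟨hz1, hz2⟩ := hz
      have hz1' := abs_le.1 hz1
      have hre2 : z.re ^ 2 ≤ 1 / 4 := by nlinarith
      have him : (w.im - z.im) ^ 2 ≤ 5 / 4 := by nlinarith [sq_nonneg w.re]
      have himb : |w.im - z.im| ≤ 2 := abs_le_of_sq_le_sq (by nlinarith) (by norm_num)
      rw [Metric.mem_closedBall, dist_eq_norm]
      calc ‖z - w‖ ≤ |(z - w).re| + |(z - w).im| := Complex.norm_le_abs_re_add_abs_im _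
        _ ≤ (1 / 2 + |w.re|) + 2 := by
            apply add_le_add
            · rw [Complex.sub_re]
              exact (abs_sub _ _).trans (add_le_add hz1 le_rfl)
            · rw [Complex.sub_im, abs_sub_comm]; exact himb
        _ ≤ |w.re| + 3 := by linarith
  have hSev : ∀ᶠ N in atTop, ∀ z ∈ S, (Q N).eval z ≠ 0 := by
    rcases S.eq_empty_or_nonempty with h0 | h0
    · exact Eventually.of_forall fun N z hz => by rw [h0] at hz; exact absurd hz (Set.notMem_empty z)
    · obtain ⟨z0, hz0, hmin⟩ := hSc.exists_isMinOn h0 (hg.continuous.norm.continuousOn)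
      have hm : 0 < ‖g z0‖ := norm_pos_iff.2 (hJε z0 hz0.1 hz0.2)
      have hunif : TendstoUniformlyOn (fun (N : ℕ) (z : ℂ) => (Q N).eval z) g atTop S :=
        (tendstoLocallyUniformlyOn_iff_forall_isCompact isOpen_univ).1
          (hlim.tendstoLocallyUniformlyOn) _ (subset_univ _) hSc
      filter_upwards [(Metric.tendstoUniformlyOn_iff.1 hunif) ‖g z0‖ hm] with N hN z hz h1
      have h2 := hN z hz
      rw [h1, dist_zero_right] at h2
      exact absurd h2 (not_lt.2 (hmin hz))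
  have hder := tlu_deriv hlim
  have hpt : ∀ z : ℂ, g z ≠ 0 → Tendsto (fun N => ((derivative (Q N)).eval z / (Q N).eval z)) atTop
      (𝓝 (deriv g z / g z)) := by
    intro z hz
    exact ((tendstoLocallyUniformlyOn_univ.2 hder).tendsto_at (Set.mem_univ z)).div
      ((tendstoLocallyUniformlyOn_univ.2 hlim).tendsto_at (Set.mem_univ z)) hz
  have hgev : ∀ᶠ w' in 𝓝 w, g w' ≠ 0 := hg.continuous.continuousAt.eventually_ne hw
  set δ : ℝ := ε / (3 + ε + 2 * |w.re|) with hδ
  have hδp : 0 < δ := by positivity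
  filter_upwards [hgev, Metric.ball_mem_nhds w hδp] with w' hw1 hw2
  rw [Metric.mem_ball, dist_eq_norm] at hw2
  have hre : |w'.re - w.re| < δ := by
    have := Complex.abs_re_le_norm (w' - w)
    rw [Complex.sub_re] at this
    linarith
  have him : |w'.im - w.im| < δ := by
    have := Complex.abs_im_le_norm (w' - w)
    rw [Complex.sub_im] at this
    linarith
  have hout : ∀ z : ℂ, |z.re| ≤ 1 / 2 → z ∉ S → z.re ^ 2 < w'.re ^ 2 + (w'.im - z.im) ^ 2 := by
    intro z hz1 hz2
    have hz3 : z.re ^ 2 + ε < w.re ^ 2 + (w.im - z.im) ^ 2 := by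
      by_contra hc
      push Not at hc
      exact hz2 ⟨hz1, hc⟩
    have hδ1 : δ * (3 + ε + 2 * |w.re|) = ε := by
      rw [hδ]; field_simp
    have hz1' := abs_le.1 hz1
    have hre2 : z.re ^ 2 ≤ 1 / 4 := by nlinarith
    have ha := abs_lt.1 hre
    have hb := abs_lt.1 him
    have hδle : δ ≤ 1 := by
      rw [hδ, div_le_one (by positivity)]
      have := abs_nonneg w.re
      linarith
    set D := w.im - z.im with hD
    have e1 : w'.im - z.im = D + (w'.im - w.im) := by rw [hD]; ring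
    have e2 : w'.re = w.re + (w'.re - w.re) := by ring
    set p := w'.re - w.re with hp
    set q := w'.im - w.im with hq
    rw [e1, e2]
    have hP : w.re * p ≥ -(|w.re| * δ) := by
      have h1 : |w.re * p| ≤ |w.re| * δ := by
        rw [abs_mul]
        exact mul_le_mul_of_nonneg_left hre.le (abs_nonneg _)
      have := abs_le.1 h1
      linarith [this.1]
    have hQ' : D * q ≥ -((D ^ 2 + 1) / 2 * δ) := by
      have h1 : |D * q| ≤ |D| * δ := by
        rw [abs_mul]
        exact mul_le_mul_of_nonneg_left him.le (abs_nonneg _)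
      have h2 : |D| ≤ (D ^ 2 + 1) / 2 := by
        have := sq_abs D
        nlinarith [sq_nonneg (|D| - 1)]
      have h3 := abs_le.1 h1
      have h4 : |D| * δ ≤ (D ^ 2 + 1) / 2 * δ := mul_le_mul_of_nonneg_right h2 hδp.le
      linarith [h3.1]
    have hw0 := abs_nonneg w.re
    -- (w.re^2 + D^2) (1 - δ) + ... 
    have h5 : (w.re ^ 2 + D ^ 2) * (1 - δ) ≥ (z.re ^ 2 + ε) * (1 - δ) :=
      mul_le_mul_of_nonneg_right hz3.le (by linarith)
    nlinarith [sq_nonneg p, sq_nonneg q, mul_nonneg hδp.le (sq_nonneg w.re), mul_pos hδp hε]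
  -- pass to the limit
  have hsym : g (-((starRingEnd ℂ) w')) ≠ 0 := by
    rw [hs]
    intro h0
    rcases mul_eq_zero.1 h0 with h1 | h1
    · rw [h1] at hc; simp at hc
    · exact hw1 (by simpa using h1)
  have hmk : (-((starRingEnd ℂ) w')) = (⟨-w'.re, w'.im⟩ : ℂ) := by
    apply Complex.ext <;> simp
  have hlim1 := hpt w' hw1
  have hlim2 := hpt _ hsym
  have hL : Tendsto (fun N => w'.re * (((derivative (Q N)).eval w' / (Q N).eval w').re -
      ((derivative (Q N)).eval (-((starRingEnd ℂ) w')) / (Q N).eval (-((starRingEnd ℂ) w'))).re)) atTop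
      (𝓝 (w'.re * ((deriv g w' / g w').re -
        (deriv g (-((starRingEnd ℂ) w')) / g (-((starRingEnd ℂ) w'))).re))) := by
    apply Tendsto.const_mul
    exact ((Complex.continuous_re.tendsto _).comp hlim1).sub ((Complex.continuous_re.tendsto _).comp hlim2)
  have hpos : 0 ≤ w'.re * ((deriv g w' / g w').re -
        (deriv g (-((starRingEnd ℂ) w')) / g (-((starRingEnd ℂ) w'))).re) := by
    apply ge_of_tendsto hL
    filter_upwards [hQ, hSev] with N hN1 hN2
    have h6 := poly_nonneg (Q N) w'.re w'.im hN1.1 (by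
      intro z hz
      apply hout z (hN1.2 z hz)
      intro hzS
      exact hN2 z hzS hz)
    rw [hmk]
    exact h6
  rw [symm_deriv hg c hs, hs] at hpos
  have hc0 : c ≠ 0 := by
    intro h0; rw [h0] at hc; simp at hc
  have e5 : -c * (starRingEnd ℂ) (deriv g w') / (c * (starRingEnd ℂ) (g w')) =
      -((starRingEnd ℂ) (deriv g w' / g w')) := by
    rw [map_div₀, neg_mul, neg_div, mul_div_mul_left _ _ hc0]
  rw [e5, Complex.neg_re, Complex.conj_re] at hpos
  linarith


/-- open mapping -/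
theorem open_const {f : ℂ → ℂ} {a : ℂ} (hf : AnalyticAt ℂ f a) (h0 : (f a).re = 0) {s : ℝ} (hs : s ≠ 0)
    (h : ∀ᶠ z in 𝓝 a, 0 ≤ s * (f z).re) : ∀ᶠ z in 𝓝 a, f z = f a := by
  rcases hf.eventually_constant_or_nhds_le_map_nhds with h1 | h1
  · exact h1
  · exfalso
    have h2 : {ζ : ℂ | 0 ≤ s * ζ.re} ∈ 𝓝 (f a) := h1 h
    rw [Metric.mem_nhds_iff] at h2
    obtain ⟨r, hr, h3⟩ := h2
    have h4 : f a - ((s * (r / (2 * |s|)) : ℝ) : ℂ) ∈ Metric.ball (f a) r := by
      rw [Metric.mem_ball, dist_eq_norm]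
      have : f a - ((s * (r / (2 * |s|)) : ℝ) : ℂ) - f a = -((s * (r / (2 * |s|)) : ℝ) : ℂ) := by ring
      rw [this, norm_neg, Complex.norm_real, Real.norm_eq_abs, abs_mul, abs_div, abs_mul, abs_abs,
        abs_two, abs_of_pos hr]
      have hs' : 0 < |s| := abs_pos.2 hs
      have e : |s| * (r / (2 * |s|)) = r / 2 := by field_simp
      rw [e]; linarith
    have h5 : 0 ≤ s * (f a - ((s * (r / (2 * |s|)) : ℝ) : ℂ)).re := h3 h4
    rw [Complex.sub_re, Complex.ofReal_re, h0, zero_sub] at h5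
    have hs' : 0 < |s| := abs_pos.2 hs
    have h6 : 0 < s * (s * (r / (2 * |s|))) := by
      have : s * (s * (r / (2 * |s|))) = s ^ 2 * (r / (2 * |s|)) := by ring
      rw [this]
      have : 0 < s ^ 2 := by positivity
      positivity
    linarith

/-- the logarithmic derivative is not locally constant -/
theorem const_contr {g : ℂ → ℂ} (hg : Differentiable ℂ g) {w a c : ℂ} (hw : g w ≠ 0)
    (hw' : deriv g w = 0) (ha : g a ≠ 0) (h : ∀ᶠ z in 𝓝 a, deriv g z / g z = c) :
    ∀ z, deriv g z = 0 := by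
  have hga : ∀ᶠ z in 𝓝 a, g z ≠ 0 := hg.continuous.continuousAt.eventually_ne ha
  have h1 : deriv g =ᶠ[𝓝 a] fun z => c * g z := by
    filter_upwards [hga, h] with z h2 h3
    rw [← h3]; field_simp
  have hdg : Differentiable ℂ (deriv g) := by
    have := Pool.Agent.H24R2.JP.ParCircAux.diff_iter hg 1
    rwa [iteratedDeriv_one] at this
  have h2 : deriv g = fun z => c * g z :=
    AnalyticOnNhd.eq_of_eventuallyEq (fun z _ => hdg.analyticAt z)
      (fun z _ => (hg.const_mul c).analyticAt z) h1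
  have h3 : c = 0 := by
    have := congrFun h2 w
    rw [hw'] at this
    rcases mul_eq_zero.1 this.symm with h4 | h4
    · exact h4
    · exact absurd h4 hw
  intro z
  rw [h2]
  simp [h3]

/-- a boundary point lemma -/
theorem hopf {f : ℂ → ℂ} {w : ℂ} {ρ : ℝ} (hρ : 0 < ρ) (hw : w.re = 0)
    (hd : DifferentiableOn ℂ f (Metric.closedBall w ρ)) (h0 : f w = 0) (h1 : deriv f w = 0)
    (h2 : ∀ z ∈ Metric.closedBall w ρ, 0 ≤ z.re * (f z).re) : (f (w + ρ)).re ≤ 0 := by
  by_contra hcon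
  push Not at hcon
  have hcm : ∀ θ : ℝ, circleMap w ρ θ ∈ Metric.closedBall w ρ := fun θ =>
    Metric.sphere_subset_closedBall (circleMap_mem_sphere w hρ.le θ)
  have hcont : Continuous fun θ : ℝ => f (circleMap w ρ θ) := by
    rw [← continuousOn_univ]
    exact hd.continuousOn.comp (continuous_circleMap w ρ).continuousOn (fun θ _ => hcm θ)
  -- first integral
  have hI1 : (∮ z in C(w, ρ), f z) = 0 :=
    Complex.circleIntegral_eq_zero_of_differentiable_on_off_countable hρ.le countable_empty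
      hd.continuousOn (fun z hz => (hd z (Metric.ball_subset_closedBall hz.1)).differentiableAt
        (Metric.closedBall_mem_nhds_of_mem hz.1))
  have hkd : DifferentiableOn ℂ (dslope f w) (Metric.closedBall w ρ) :=
    (differentiableOn_dslope (Metric.closedBall_mem_nhds w hρ)).2 hd
  have hI2 : (∮ z in C(w, ρ), (z - w)⁻¹ • dslope f w z) = 0 := by
    rw [hkd.circleIntegral_sub_inv_smul (Metric.mem_ball_self hρ), dslope_same, h1, smul_zero]
  have hz0 : ∀ θ : ℝ, circleMap 0 ρ θ ≠ 0 := fun θ => circleMap_ne_center hρ.ne'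
  have e1 : ∫ θ in (0 : ℝ)..(2 * Real.pi), circleMap 0 ρ θ * I * f (circleMap w ρ θ) = 0 := by
    rw [circleIntegral] at hI1
    simpa only [deriv_circleMap, smul_eq_mul] using hI1
  have e2 : ∫ θ in (0 : ℝ)..(2 * Real.pi), (circleMap 0 ρ θ)⁻¹ * I * f (circleMap w ρ θ) = 0 := by
    rw [circleIntegral] at hI2
    refine Eq.trans ?_ hI2
    apply intervalIntegral.integral_congr
    intro θ _
    simp only [deriv_circleMap, smul_eq_mul]
    have h3 : circleMap w ρ θ ≠ w := circleMap_ne_center hρ.ne'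
    have h4 : circleMap w ρ θ - w = circleMap 0 ρ θ := by simp [circleMap]
    rw [dslope_of_ne _ h3, slope_def_field, h0, sub_zero, h4]
    have := hz0 θ
    field_simp
  have e3 : ∫ θ in (0 : ℝ)..(2 * Real.pi), ((2 * Real.cos θ : ℝ) : ℂ) * I * f (circleMap w ρ θ) = 0 := by
    have h3 : ∀ θ : ℝ, ((2 * Real.cos θ : ℝ) : ℂ) * I * f (circleMap w ρ θ) =
        (1 / (ρ : ℂ)) * (circleMap 0 ρ θ * I * f (circleMap w ρ θ)) +
        (ρ : ℂ) * ((circleMap 0 ρ θ)⁻¹ * I * f (circleMap w ρ θ)) := by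
      intro θ
      have hρ0 : (ρ : ℂ) ≠ 0 := by exact_mod_cast hρ.ne'
      have h4 : circleMap 0 ρ θ = ρ * cexp (θ * I) := by simp [circleMap]
      have h5 : (circleMap 0 ρ θ)⁻¹ = (1 / (ρ : ℂ)) * cexp (-(θ * I)) := by
        rw [h4, mul_inv, Complex.exp_neg, one_div]
      have h6 : ((2 * Real.cos θ : ℝ) : ℂ) = cexp (θ * I) + cexp (-(θ * I)) := by
        push_cast
        rw [Complex.cos, ← neg_mul]; ring
      rw [h5, h4, h6]
      field_simp
    simp_rw [h3]
    rw [intervalIntegral.integral_add, intervalIntegral.integral_const_mul,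
      intervalIntegral.integral_const_mul, e1, e2]
    · ring
    · apply Continuous.intervalIntegrable
      exact continuous_const.mul (((continuous_circleMap 0 ρ).mul continuous_const).mul hcont)
    · apply Continuous.intervalIntegrable
      exact continuous_const.mul ((((continuous_circleMap 0 ρ).inv₀ hz0).mul continuous_const).mul hcont)
  have e4 : ∫ θ in (0 : ℝ)..(2 * Real.pi), Real.cos θ * (f (circleMap w ρ θ)).re = 0 := by
    have h3 : Continuous fun θ : ℝ => ((2 * Real.cos θ : ℝ) : ℂ) * I * f (circleMap w ρ θ) := by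
      have h6 : Continuous fun θ : ℝ => ((2 * Real.cos θ : ℝ) : ℂ) * I := by fun_prop
      exact h6.mul hcont
    have h4 := Complex.imCLM.intervalIntegral_comp_comm (h3.intervalIntegrable (μ := volume) 0 (2 * Real.pi))
    rw [e3, map_zero] at h4
    have h5 : ∀ θ : ℝ, Complex.imCLM (((2 * Real.cos θ : ℝ) : ℂ) * I * f (circleMap w ρ θ)) =
        2 * (Real.cos θ * (f (circleMap w ρ θ)).re) := by
      intro θ
      rw [Complex.imCLM_apply, mul_assoc, Complex.im_ofReal_mul, Complex.mul_im, Complex.I_re, Complex.I_im]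
      ring
    simp_rw [h5] at h4
    rw [intervalIntegral.integral_const_mul] at h4
    linarith
  have hpos : 0 < ∫ θ in (0 : ℝ)..(2 * Real.pi), Real.cos θ * (f (circleMap w ρ θ)).re := by
    apply intervalIntegral.integral_pos (by positivity)
    · exact (Real.continuous_cos.mul (Complex.continuous_re.comp hcont)).continuousOn
    · intro θ _
      have h3 := h2 _ (hcm θ)
      have h4 : (circleMap w ρ θ).re = ρ * Real.cos θ := by
        rw [circleMap, Complex.add_re, hw, zero_add, Complex.re_ofReal_mul, Complex.exp_ofReal_mul_I_re]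
      rw [h4, mul_assoc] at h3
      exact nonneg_of_mul_nonneg_right h3 hρ
    · refine ⟨0, ⟨le_rfl, by positivity⟩, ?_⟩
      have : circleMap w ρ 0 = w + ρ := by simp [circleMap]
      rw [this, Real.cos_zero, one_mul]
      exact hcon
  rw [e4] at hpos
  exact lt_irrefl _ hpos

end CirAux

end Pool.Agent.Y671.LD
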