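import Pool.Agent.Y671.LD.SpecH
import Pool.Agent.W333.SDNGN
import Pool.Agent.W578.SD.UD
import Pool.Agent.W45.SD.AW
import Pool.Agent.W366.SDNL
import Pool.Agent.W337.SD.Cnt
import Pool.Agent.W337.SD.Cov
import Pool.Agent.Y494.LD.Near
import Pool.Agent.Y317.LD.GR1
import Pool.Agent.Y46.LD.UNG
import Pool.Agent.Y46.LD.Bigm
import Pool.Agent.Y660.GL.Unit
import Pool.Agent.Y175.LD.Grow
import Pool.Agent.Y228.LD.PT
import Pool.Agent.Y228.LD.Cnx
import Pool.Agent.Y287.LD.Midh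
import Pool.Agent.Y287.LD.Dyh

set_option autoImplicit false

/-! # Zeros of the heat flow: assembly of the abstract theorem -/

namespace Pool.Agent.Y671.LD

open Pool.Agent.W186.SD

theorem ud : S_UD := Pool.Agent.W578.SD.UD.ud

theorem nl : S_NL := Pool.Agent.W366.SDNL.nl ud

theorem aw : S_AW := Pool.Agent.W45.SD.aw

theorem cnt : S_CNT := Pool.Agent.W337.SD.cnt ud aw

theorem hrel : SH_REL := Pool.Agent.Y494.LD.rel

theorem hung : SH_UNG := Pool.Agent.Y46.LD.ung Pool.Agent.Y494.LD.near Pool.Agent.Y317.LD.gr1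

theorem hbigm : SH_BIGM := Pool.Agent.Y46.LD.bigm hung aw nl hrel

theorem hunit : SH_UNIT := Pool.Agent.Y660.LD.unit cnt hrel

theorem hgrow : SH_GROW := Pool.Agent.Y175.LD.grow

theorem hpt : SH_PT := Pool.Agent.Y228.LD.pt hgrow Pool.Agent.W333.SDNGN.ngn aw nl hung hrel

theorem hcnx : SH_CNX := Pool.Agent.Y228.LD.cnx hgrow Pool.Agent.W333.SDNGN.ngn cnt hrel

theorem hmidh : SH_MIDH := Pool.Agent.Y287.LD.Midh.midh hunit hpt hcnx Pool.Agent.W337.SD.cov

theorem hdyh : SH_DYH := Pool.Agent.Y287.LD.Dyh.dyh hmidh hbigm hunit Pool.Agent.W337.SD.cov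

theorem hfinh : SH_FINH := Pool.Agent.Y287.LD.Dyh.finh hdyh

end Pool.Agent.Y671.LD
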