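import Pool.Agent.Y671.LD.CirAux

set_option autoImplicit false

/-!
# Strip and Jensen circles for limits of polynomials with zeros in a strip
-/

namespace Pool.Agent.Y671.LD

open Complex Filter Topology MeasureTheory Set Polynomial
open CirAux

/-- limits of polynomials with zeros in the strip -/
def App (B : ℝ) (F : ℂ → ℂ) : Prop := ∃ Q : ℕ → ℂ[X], (∀ N (z : ℂ), (Q N).IsRoot z → |z.re| ≤ B) ∧
    TendstoLocallyUniformly (fun (N : ℕ) (z : ℂ) => (Q N).eval z) F atTop

theorem gl_strip' {B : ℝ} (Q : ℂ[X]) (hd : derivative Q ≠ 0) (h : ∀ z : ℂ, Q.IsRoot z → |z.re| ≤ B)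
    (z : ℂ) (hz : (derivative Q).IsRoot z) : |z.re| ≤ B := by
  have hd0 : 0 < Q.degree := by
    by_contra hcon
    push Not at hcon
    apply hd
    rw [eq_C_of_degree_le_zero hcon, derivative_C]
  have hmem : z ∈ Q.derivative.rootSet ℂ := by
    rw [mem_rootSet]
    exact ⟨hd, by simpa [IsRoot] using hz⟩
  have h1 := rootSet_derivative_subset_convexHull_rootSet hd0 hmem
  have hconv : Convex ℝ {z : ℂ | |z.re| ≤ B} := by
    have : {z : ℂ | |z.re| ≤ B} = Complex.reLm ⁻¹' (Set.Icc (-B) (B)) := by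
      ext z
      simp only [mem_ofPred_eq, mem_preimage, mem_Icc, abs_le]
      rfl
    rw [this]
    exact (convex_Icc _ _).linear_preimage _
  refine convexHull_min ?_ hconv h1
  intro x hx
  rw [mem_rootSet] at hx
  apply h x
  simpa [IsRoot] using hx.2

theorem approx {B : ℝ} {F : ℂ → ℂ} (happ : App B F) (p : ℂ) (hne : ∀ n, iteratedDeriv n F p ≠ 0)
    (n : ℕ) : ∃ Q : ℕ → ℂ[X],
    (∀ᶠ N in atTop, Q N ≠ 0 ∧ ∀ z : ℂ, (Q N).IsRoot z → |z.re| ≤ B) ∧
    TendstoLocallyUniformly (fun (N : ℕ) (z : ℂ) => (Q N).eval z) (iteratedDeriv n F) atTop := by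
  have hnz : ∀ (n : ℕ) (Q : ℕ → ℂ[X]), TendstoLocallyUniformly (fun (N : ℕ) (z : ℂ) => (Q N).eval z)
      (iteratedDeriv n F) atTop → ∀ᶠ N in atTop, Q N ≠ 0 := by
    intro n Q hQ
    have h1 := (tendstoLocallyUniformlyOn_univ.2 hQ).tendsto_at (Set.mem_univ (p : ℂ))
    filter_upwards [h1.eventually_ne (hne n)] with N hN h0
    rw [h0] at hN
    simp at hN
  induction n with
  | zero =>
    obtain ⟨Q, hQ1, hQ2⟩ := happ
    refine ⟨Q, ?_, by simpa using hQ2⟩
    filter_upwards [hnz 0 Q (by simpa using hQ2)] with N hN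
    exact ⟨hN, hQ1 N⟩
  | succ n ih =>
    obtain ⟨Q, hQ1, hQ2⟩ := ih
    have h3 : TendstoLocallyUniformly (fun (N : ℕ) (z : ℂ) => (derivative (Q N)).eval z)
        (iteratedDeriv (n + 1) F) atTop := by
      rw [iteratedDeriv_succ]
      exact tlu_deriv hQ2
    refine ⟨fun N => derivative (Q N), ?_, h3⟩
    filter_upwards [hQ1, hnz (n + 1) (fun N => derivative (Q N)) h3] with N hN1 hN2
    exact ⟨hN2, fun z hz => gl_strip' (Q N) hN2 hN1.2 z hz⟩

theorem strip_of_app {B : ℝ} {F : ℂ → ℂ} (hF : Differentiable ℂ F) (happ : App B F) (p : ℂ)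
    (hne : ∀ n, iteratedDeriv n F p ≠ 0) : Strip F B := by
  intro n a ha
  obtain ⟨Q, hQ1, hQ2⟩ := approx happ p hne n
  refine le_of_forall_pos_le_add fun ε hε => ?_
  have h1 := Pool.Agent.H24R2.JP.ParCircAux.hurw (F := fun (N : ℕ) (z : ℂ) => (Q N).eval z)
    (f := iteratedDeriv n F) (fun N => (Q N).differentiable) hQ2
    (Pool.Agent.H24R2.JP.ParCircAux.diff_iter hF n) ha (hne n) hε
  obtain ⟨N, hN1, hN2⟩ := (h1.and hQ1).exists
  obtain ⟨z, hz1, hz2⟩ := hN1
  have h2 := hN2.2 z hz2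
  have h3 : |a.re| ≤ |z.re| + ‖z - a‖ := by
    have h4 := Complex.abs_re_le_norm (z - a)
    rw [Complex.sub_re] at h4
    have h5 : |a.re| ≤ |z.re| + |z.re - a.re| := by
      have := abs_sub_abs_le_abs_sub a.re z.re
      rw [abs_sub_comm] at this
      linarith
    linarith
  linarith

theorem cir12 {F : ℂ → ℂ} (hF : Differentiable ℂ F)
    (hsy : ∀ z, F (-((starRingEnd ℂ) z)) = (starRingEnd ℂ) (F z)) (happ : App (1 / 2) F) (p : ℂ)
    (hne : ∀ n, iteratedDeriv n F p ≠ 0) : Cir F := by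
  intro n w hw
  obtain ⟨hw1, hw2⟩ := hw
  set g : ℂ → ℂ := iteratedDeriv n F with hg
  have hgd : Differentiable ℂ g := Pool.Agent.H24R2.JP.ParCircAux.diff_iter hF n
  have hdg : deriv g = iteratedDeriv (n + 1) F := by rw [hg, iteratedDeriv_succ]
  have hddg : deriv (deriv g) = iteratedDeriv (n + 2) F := by rw [hdg, ← iteratedDeriv_succ]
  have hw1' : deriv g w = 0 := by rw [hdg]; exact hw1
  by_cases hgw : g w = 0
  · exact ⟨w, ⟨hgw, Or.inr hw1⟩, le_rfl, by simp⟩
  by_contra hcon
  push Not at hcon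
  have hJ : ∀ z : ℂ, |z.re| ≤ 1 / 2 → w.re ^ 2 + (w.im - z.im) ^ 2 ≤ z.re ^ 2 → g z ≠ 0 := by
    intro z _ hz2 hz3
    by_cases hre : z.re = 0
    · rw [hre] at hz2
      have h1 : w.re = 0 := by
        have : w.re ^ 2 ≤ 0 := by nlinarith [sq_nonneg (w.im - z.im)]
        exact pow_eq_zero_iff (two_ne_zero) |>.1 (le_antisymm this (sq_nonneg _))
      have h2 : w.im - z.im = 0 := by
        have : (w.im - z.im) ^ 2 ≤ 0 := by nlinarith [sq_nonneg w.re]
        exact pow_eq_zero_iff (two_ne_zero) |>.1 (le_antisymm this (sq_nonneg _))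
      apply hgw
      have : w = z := by
        apply Complex.ext
        · rw [h1, hre]
        · linarith
      rw [this]; exact hz3
    · have h1 : |w.re| ≤ |z.re| := sq_le_sq.1 (by nlinarith [sq_nonneg (w.im - z.im)])
      have h2 : |w.im - z.im| ≤ |z.re| := sq_le_sq.1 (by nlinarith [sq_nonneg w.re])
      exact absurd h2 (not_le.2 (hcon z ⟨hz3, Or.inl hre⟩ h1))
  obtain ⟨Q, hQ1, hQ2⟩ := approx happ p hne n
  have hM := signM hgd ((-1) ^ n) (by simp) (symm_iter hF hsy n) hQ1 hQ2 w hgw hJ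
  -- the final contradiction
  have hend : ∀ a c : ℂ, g a ≠ 0 → (∀ᶠ z in 𝓝 a, deriv g z / g z = c) → False := by
    intro a c ha hc
    have h1 := const_contr hgd hgw hw1' ha hc p
    rw [hdg] at h1
    exact hne (n + 1) h1
  have hfan : ∀ a : ℂ, g a ≠ 0 → AnalyticAt ℂ (fun z => deriv g z / g z) a := by
    intro a ha
    exact ((hgd.analyticAt a).deriv).div (hgd.analyticAt a) ha
  by_cases hwre : w.re = 0
  · have hw3 : iteratedDeriv (n + 2) F w = 0 := by
      rcases hw2 with h1 | h1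
      · exact absurd hwre h1
      · exact h1
    have hgev : ∀ᶠ z in 𝓝 w, g z ≠ 0 := hgd.continuous.continuousAt.eventually_ne hgw
    obtain ⟨R, hR, hRb⟩ := Metric.eventually_nhds_iff_ball.1 (hM.and hgev)
    set ρ := R / 2 with hρ
    have hρp : 0 < ρ := by positivity
    have hsub : Metric.closedBall w ρ ⊆ Metric.ball w R :=
      Metric.closedBall_subset_ball (by rw [hρ]; linarith)
    have hder : deriv (fun z => deriv g z / g z) w = 0 := by
      have h1 : HasDerivAt (deriv g) (deriv (deriv g) w) w := by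
        have : Differentiable ℂ (deriv g) := by
          rw [hdg]; exact Pool.Agent.H24R2.JP.ParCircAux.diff_iter hF (n + 1)
        exact (this w).hasDerivAt
      have h2 : HasDerivAt g (deriv g w) w := (hgd w).hasDerivAt
      have h3 := (h1.div h2 hgw).deriv
      rw [hddg, hw3, hw1'] at h3
      have h4 : deriv (fun z => deriv g z / g z) w = deriv (deriv g / g) w := rfl
      rw [h4, h3]
      ring
    have hle := hopf (f := fun z => deriv g z / g z) hρp hwre
      (fun z hz => (hfan z (hRb z (hsub hz)).2).differentiableAt.differentiableWithinAt)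
      (by simp only [hw1', zero_div]) hder (fun z hz => (hRb z (hsub hz)).1)
    have hmem : w + ρ ∈ Metric.ball w R := by
      rw [Metric.mem_ball, dist_eq_norm, add_sub_cancel_left, Complex.norm_real, Real.norm_eq_abs,
        abs_of_pos hρp]
      rw [hρ]; linarith
    have hre1 : (w + (ρ : ℂ)).re = ρ := by rw [Complex.add_re, hwre, zero_add, Complex.ofReal_re]
    have hge : 0 ≤ ((fun z => deriv g z / g z) (w + ρ)).re := by
      have h1 := (hRb _ hmem).1
      rw [hre1] at h1
      exact nonneg_of_mul_nonneg_right h1 hρp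
    have hz : ((fun z => deriv g z / g z) (w + ρ)).re = 0 := le_antisymm hle hge
    have hnear : ∀ᶠ z in 𝓝 (w + (ρ : ℂ)), 0 ≤ (1 : ℝ) * ((fun z => deriv g z / g z) z).re := by
      have h1 : ∀ᶠ z in 𝓝 (w + (ρ : ℂ)), z ∈ Metric.ball w R := Metric.isOpen_ball.mem_nhds hmem
      have h2 : ∀ᶠ z : ℂ in 𝓝 (w + (ρ : ℂ)), 0 < z.re := by
        apply (Complex.continuous_re.tendsto _).eventually
        apply lt_mem_nhds
        rw [hre1]; exact hρp
      filter_upwards [h1, h2] with z h3 h4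
      rw [one_mul]
      exact nonneg_of_mul_nonneg_right (hRb z h3).1 h4
    exact hend _ _ (hRb _ hmem).2 (open_const (hfan _ (hRb _ hmem).2) hz one_ne_zero hnear)
  · have hnear : ∀ᶠ z in 𝓝 w, 0 ≤ w.re * ((fun z => deriv g z / g z) z).re := by
      have h2 : ∀ᶠ z : ℂ in 𝓝 w, 0 < w.re * z.re := by
        have h3 : Continuous fun z : ℂ => w.re * z.re := by fun_prop
        apply (h3.tendsto _).eventually
        apply lt_mem_nhds
        exact mul_self_pos.2 hwre
      filter_upwards [hM, h2] with z h3 h4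
      by_contra hc
      push Not at hc
      have h5 : 0 ≤ (w.re * z.re) * (z.re * (deriv g z / g z).re) := mul_nonneg h4.le h3
      have h6 : (w.re * z.re) * (z.re * (deriv g z / g z).re) =
          (w.re * (deriv g z / g z).re) * z.re ^ 2 := by ring
      have h7 : z.re ≠ 0 := by
        intro h8; rw [h8] at h4; simp at h4
      have h8 : 0 < z.re ^ 2 := by positivity
      rw [h6] at h5
      nlinarith
    exact hend _ _ hgw (open_const (hfan _ hgw) (by simp only [hw1', zero_div, Complex.zero_re]) hwre hnear)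

/-- scaling of the derivatives -/
theorem iter_scale {F : ℂ → ℂ} (hF : Differentiable ℂ F) (b : ℂ) (n : ℕ) (z : ℂ) :
    iteratedDeriv n (fun z => F (b * z)) z = b ^ n * iteratedDeriv n F (b * z) := by
  have h1 : ContDiff ℂ n F := hF.contDiff
  exact congrFun (iteratedDeriv_comp_const_mul h1 b) z

/-- Jensen circles for a general strip -/
theorem cir_of_app {B : ℝ} (hB : 0 < B) {F : ℂ → ℂ} (hF : Differentiable ℂ F)
    (hsy : ∀ z, F (-((starRingEnd ℂ) z)) = (starRingEnd ℂ) (F z)) (happ : App B F) (p : ℂ)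
    (hne : ∀ n, iteratedDeriv n F p ≠ 0) : Cir F := by
  obtain ⟨b, hb⟩ : ∃ b : ℝ, b = 2 * B := ⟨_, rfl⟩
  have hb0 : 0 < b := by rw [hb]; positivity
  have hbc : (b : ℂ) ≠ 0 := by exact_mod_cast hb0.ne'
  set G : ℂ → ℂ := fun z => F (b * z) with hG
  have hGd : Differentiable ℂ G := hF.comp (by fun_prop)
  have hit : ∀ n z, iteratedDeriv n G z = b ^ n * iteratedDeriv n F (b * z) := iter_scale hF b
  have hGs : ∀ z, G (-((starRingEnd ℂ) z)) = (starRingEnd ℂ) (G z) := by
    intro z
    simp only [hG]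
    rw [← hsy]
    congr 1
    rw [map_mul, conj_ofReal]
    ring
  have hGa : App (1 / 2) G := by
    obtain ⟨Q, hQ1, hQ2⟩ := happ
    refine ⟨fun N => (Q N).comp (C (b : ℂ) * X), ?_, ?_⟩
    · intro N z hz
      have h1 : (Q N).IsRoot (b * z) := by
        simpa [IsRoot, eval_comp] using hz
      have h2 := hQ1 N _ h1
      rw [Complex.re_ofReal_mul, abs_mul, abs_of_pos hb0] at h2
      rw [hb] at h2
      nlinarith
    · have h1 : (fun (N : ℕ) (z : ℂ) => ((Q N).comp (C (b : ℂ) * X)).eval z) =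
          fun (N : ℕ) => (fun z : ℂ => (Q N).eval z) ∘ fun z : ℂ => b * z := by
        funext N z
        simp [eval_comp]
      rw [h1]
      exact hQ2.comp (fun z : ℂ => b * z) (by fun_prop)
  have hGne : ∀ n, iteratedDeriv n G (p / b) ≠ 0 := by
    intro n
    rw [hit, mul_div_cancel₀ _ hbc]
    exact mul_ne_zero (pow_ne_zero _ hbc) (hne n)
  have hbad : ∀ n z, bad G n z ↔ bad F n (b * z) := by
    intro n z
    unfold bad
    rw [hit, hit]
    simp only [mul_eq_zero, pow_eq_zero_iff', hbc, false_and, false_or, Complex.re_ofReal_mul, ne_eq,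
      ofReal_eq_zero, hb0.ne', not_false_eq_true]
  have hc := cir12 hGd hGs hGa (p / b) hGne
  intro n w hw
  have hw' : bad G (n + 1) (w / b) := by
    rw [hbad, mul_div_cancel₀ _ hbc]; exact hw
  obtain ⟨z, hz1, hz2, hz3⟩ := hc n (w / b) hw'
  refine ⟨b * z, (hbad n z).1 hz1, ?_, ?_⟩
  · have h1 : w.re = b * (w / b).re := by
      rw [← Complex.re_ofReal_mul, mul_div_cancel₀ _ hbc]
    rw [h1, Complex.re_ofReal_mul, abs_mul, abs_mul]
    exact mul_le_mul_of_nonneg_left hz2 (abs_nonneg _)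
  · have h1 : w.im = b * (w / b).im := by
      rw [← Complex.im_ofReal_mul, mul_div_cancel₀ _ hbc]
    rw [h1, Complex.re_ofReal_mul, Complex.im_ofReal_mul, ← mul_sub, abs_mul, abs_mul]
    exact mul_le_mul_of_nonneg_left hz3 (abs_nonneg _)

end Pool.Agent.Y671.LD
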