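import Pool.Agent.Y671.LD.Spec

set_option autoImplicit false

namespace Pool.Agent.Y671.LD

open Complex Filter Topology MeasureTheory Set
open Pool.Agent.H24R2.DZ (ra NN)

variable (F : ℂ → ℂ)

/-- the covering lemma -/
theorem cover (w : ℂ → ℝ) (hw : ∀ s, 0 ≤ w s) (τ : ℂ → ℝ) (δ W : ℝ) (hδ : 0 < δ) (hW : 0 ≤ W) :
    ∀ (S : Finset ℂ) (B : Set ℝ) (m : ℝ), 0 ≤ m →
    (∀ s ∈ S, Icc (τ s - δ) (τ s + δ) ⊆ B) → volume B ≤ ENNReal.ofReal m →
    (∀ s ∈ S, ∑ s' ∈ S.filter (fun s' => |τ s' - τ s| ≤ 2 * δ), w s' ≤ W) →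
    ∑ s ∈ S, w s ≤ W * m / (2 * δ) := by
  intro S
  induction S using Finset.strongInduction with
  | H S ih =>
    intro B m hm0 hB hm hS
    rcases S.eq_empty_or_nonempty with rfl | ⟨s0, hs0⟩
    · rw [Finset.sum_empty]; positivity
    · set S1 := S.filter (fun s' => |τ s' - τ s0| ≤ 2 * δ) with hS1
      set S2 := S.filter (fun s' => ¬ |τ s' - τ s0| ≤ 2 * δ) with hS2
      have hsplit : ∑ s ∈ S, w s = ∑ s ∈ S1, w s + ∑ s ∈ S2, w s := by
        rw [hS1, hS2, Finset.sum_filter_add_sum_filter_not]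
      have hI : Icc (τ s0 - δ) (τ s0 + δ) ⊆ B := hB s0 hs0
      have hvI : volume (Icc (τ s0 - δ) (τ s0 + δ)) = ENNReal.ofReal (2 * δ) := by
        rw [Real.volume_Icc]; congr 1; ring
      have h2δ : 2 * δ ≤ m := by
        have h1 : ENNReal.ofReal (2 * δ) ≤ ENNReal.ofReal m := by
          rw [← hvI]; exact (measure_mono hI).trans hm
        exact (ENNReal.ofReal_le_ofReal_iff hm0).1 h1
      have hsub : S2 ⊂ S := by
        rw [Finset.ssubset_iff_of_subset (Finset.filter_subset _ _)]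
        refine ⟨s0, hs0, ?_⟩
        rw [Finset.mem_filter]
        push Not
        intro _
        rw [sub_self, abs_zero]; positivity
      have hind := ih S2 hsub (B \ Icc (τ s0 - δ) (τ s0 + δ)) (m - 2 * δ) (by linarith) (by
        intro s hs
        rw [hS2, Finset.mem_filter] at hs
        intro x hx
        refine ⟨hB s hs.1 hx, ?_⟩
        intro hx2
        apply hs.2
        rw [abs_le]
        constructor <;> linarith [hx.1, hx.2, hx2.1, hx2.2]) (by
        rw [measure_sdiff hI measurableSet_Icc.nullMeasurableSet (by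
          rw [hvI]; exact ENNReal.ofReal_ne_top), hvI,
          ENNReal.ofReal_sub _ (by positivity)]
        exact tsub_le_tsub_right hm _) (by
        intro s hs
        refine le_trans ?_ (hS s ((Finset.filter_subset _ _) hs))
        apply Finset.sum_le_sum_of_subset_of_nonneg
        · intro x hx
          rw [Finset.mem_filter] at hx ⊢
          exact ⟨(Finset.filter_subset _ _) hx.1, hx.2⟩
        · intro _ _ _; exact hw _)
      have h1 := hS s0 hs0
      rw [← hS1] at h1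
      rw [hsplit]
      have h3 : W * (m - 2 * δ) / (2 * δ) = W * m / (2 * δ) - W := by
        field_simp
      rw [h3] at hind
      linarith

/-- multiplicity as a weight -/
noncomputable def wt (F : ℂ → ℂ) (n : ℕ) (s : ℂ) : ℝ := (analyticOrderNatAt (iteratedDeriv n F) s : ℝ)

theorem wt_nonneg (n : ℕ) (s : ℂ) : 0 ≤ wt F n s := Nat.cast_nonneg _

/-- zeros in long windows -/
theorem window {K0 C T0 : ℝ} (hK0 : 0 ≤ K0) (hC : 0 < C) (hT0 : 2 ≤ T0)
    (hU : ∀ (t : ℝ) (n : ℕ), T0 ≤ t → (n : ℝ) ≤ K0 * Real.log t →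
      ∀ S : Finset ℂ, (∀ s ∈ S, |s.im - t| ≤ 1 ∧ iteratedDeriv n F s = 0) →
      ∑ s ∈ S, (analyticOrderNatAt (iteratedDeriv n F) s : ℝ) ≤ C * Real.log t)
    (n : ℕ) (x L : ℝ) (hx : T0 ≤ x) (hn : (n : ℝ) ≤ K0 * Real.log x) (hL : 0 ≤ L) (S : Finset ℂ)
    (hS : ∀ s ∈ S, x ≤ s.im ∧ s.im ≤ x + L ∧ iteratedDeriv n F s = 0) :
    ∑ s ∈ S, wt F n s ≤ (L + 1) * (C * Real.log (x + L)) := by
  have hx0 : 0 < x := by linarith
  set K : ℕ := ⌊L⌋₊ with hK
  have hmaps : ∀ s ∈ S, ⌊s.im - x⌋₊ ∈ Finset.range (K + 1) := by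
    intro s hs
    obtain ⟨h1, h2, -⟩ := hS s hs
    rw [Finset.mem_range, Nat.lt_succ_iff, hK]
    exact Nat.floor_le_floor (by linarith)
  rw [← Finset.sum_fiberwise_of_maps_to hmaps]
  have hone : ∀ k ∈ Finset.range (K + 1), ∑ s ∈ S.filter (fun s => ⌊s.im - x⌋₊ = k), wt F n s ≤
      C * Real.log (x + L) := by
    intro k hk
    rw [Finset.mem_range, Nat.lt_succ_iff] at hk
    have hkL : (k : ℝ) ≤ L := (Nat.cast_le.2 hk).trans (Nat.floor_le hL)
    have hk0 : (0 : ℝ) ≤ k := Nat.cast_nonneg k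
    have h1 := hU (x + k) n (by linarith) (hn.trans (mul_le_mul_of_nonneg_left
      (Real.log_le_log hx0 (by linarith)) hK0)) (S.filter (fun s => ⌊s.im - x⌋₊ = k)) (by
        intro s hs
        rw [Finset.mem_filter] at hs
        obtain ⟨h1, h2, h3⟩ := hS s hs.1
        refine ⟨?_, h3⟩
        have h4 : (k : ℝ) ≤ s.im - x := by
          rw [← hs.2]; exact Nat.floor_le (by linarith)
        have h5 : s.im - x < k + 1 := by
          have := Nat.lt_floor_add_one (s.im - x)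
          rwa [hs.2] at this
        rw [abs_le]; constructor <;> linarith)
    refine h1.trans (mul_le_mul_of_nonneg_left (Real.log_le_log (by linarith) (by linarith)) hC.le)
  calc ∑ k ∈ Finset.range (K + 1), ∑ s ∈ S.filter (fun s => ⌊s.im - x⌋₊ = k), wt F n s
      ≤ ∑ _k ∈ Finset.range (K + 1), C * Real.log (x + L) := Finset.sum_le_sum hone
    _ = ((K : ℝ) + 1) * (C * Real.log (x + L)) := by
        rw [Finset.sum_const, Finset.card_range, nsmul_eq_mul]; push_cast; ring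
    _ ≤ (L + 1) * (C * Real.log (x + L)) := by
        apply mul_le_mul_of_nonneg_right _ (mul_nonneg hC.le (Real.log_nonneg (by linarith)))
        have := Nat.floor_le hL
        linarith

/-- zeros of the derivatives in the strip -/
def Strip (F : ℂ → ℂ) (B : ℝ) : Prop := ∀ (n : ℕ) (z : ℂ), iteratedDeriv n F z = 0 → |z.re| ≤ B

/-- Jensen circles -/
def Cir (F : ℂ → ℂ) : Prop := ∀ (n : ℕ) (w : ℂ), bad F (n + 1) w →
  ∃ z : ℂ, bad F n z ∧ |w.re| ≤ |z.re| ∧ |w.im - z.im| ≤ |z.re|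

/-- iteration of the Jensen circles -/
theorem iter_cir {B : ℝ} (hstrip : Strip F B) (hcir : Cir F) (m : ℕ) : ∀ (d : ℕ) (s : ℂ), bad F (m + d) s →
    ∃ z : ℂ, bad F m z ∧ |s.re| ≤ |z.re| ∧ |s.im - z.im| ≤ d * B := by
  intro d
  induction d with
  | zero =>
    intro s hs
    exact ⟨s, hs, le_rfl, by simp⟩
  | succ d ih =>
    intro s hs
    obtain ⟨z, hz, h1, h2⟩ := hcir (m + d) s hs
    obtain ⟨z', hz', h3, h4⟩ := ih z hz
    have h5 := hstrip (m + d) z hz.1
    refine ⟨z', hz', h1.trans h3, ?_⟩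
    have h6 : |s.im - z'.im| ≤ |s.im - z.im| + |z.im - z'.im| := abs_sub_le _ _ _
    push_cast
    linarith

end Pool.Agent.Y671.LD
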