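import Pool.Agent.Y671.LD.Mid

set_option autoImplicit false

namespace Pool.Agent.Y671.LD

open Complex Filter Topology MeasureTheory Set
open Pool.Agent.H24R2.DZ (ra NN)

variable {F : ℂ → ℂ}

/-- the order of a zero is at least one -/
theorem one_le_wt (hF : Differentiable ℂ F) (p : ℂ) (hne : ∀ n, iteratedDeriv n F p ≠ 0) (n : ℕ) (z : ℂ)
    (hz : iteratedDeriv n F z = 0) : 1 ≤ wt F n z := by
  set f := iteratedDeriv n F with hf
  have hd : Differentiable ℂ f := iter_diff hF n
  have hA : AnalyticOnNhd ℂ f univ := fun w _ => hd.analyticAt w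
  have h1 : analyticOrderAt f z ≠ 0 := by
    rw [(hd.analyticAt z).analyticOrderAt_ne_zero]
    exact hz
  have h2 : analyticOrderAt f z ≠ ⊤ := by
    intro htop
    rw [analyticOrderAt_eq_top] at htop
    have h3 := hA.eqOn_zero_of_preconnected_of_eventuallyEq_zero isPreconnected_univ
      (mem_univ z) htop
    exact hne n (h3 (mem_univ p))
  have h3 : analyticOrderNatAt f z ≠ 0 := by
    unfold analyticOrderNatAt
    rw [Ne, ENat.toNat_eq_zero]
    push Not
    exact ⟨h1, h2⟩
  unfold wt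
  exact_mod_cast Nat.one_le_iff_ne_zero.2 h3

/-- the intermediate range -/
theorem inter (hF : Differentiable ℂ F) (p : ℂ) (hne : ∀ n, iteratedDeriv n F p ≠ 0)
    {B K M : ℝ} (hB : 1 / 2 ≤ B) (hK : 25 ≤ K) (hM : M = (K + 1) * B) (hstrip : Strip F B)
    {c C T1 : ℝ} {n0 : ℕ} (hC : 0 < C)
    (hmid : ∀ (T : ℝ) (n : ℕ), T1 ≤ T → n0 ≤ n →
      (n : ℝ) ≤ Real.log T / 400 → ∀ S : Finset ℂ, (∀ s ∈ S, bad F n s ∧ T < s.im ∧ s.im ≤ 2 * T) →
      ∑ s ∈ S, (analyticOrderNatAt (iteratedDeriv n F) s : ℝ) ≤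
        C * T * Real.exp (-(c * n)) * Real.log T)
    {C5 T5 : ℝ} (hC5 : 0 < C5) (hT5 : 2 ≤ T5)
    (hunit : ∀ (t : ℝ) (n : ℕ), T5 ≤ t → (n : ℝ) ≤ (2 * (K + 1)) * Real.log t →
      ∀ S : Finset ℂ, (∀ s ∈ S, |s.im - t| ≤ 1 ∧ iteratedDeriv n F s = 0) →
      ∑ s ∈ S, (analyticOrderNatAt (iteratedDeriv n F) s : ℝ) ≤ C5 * Real.log t)
    (hcir : Cir F) (T : ℝ) (n n' : ℕ) (hT1 : 2 * T1 ≤ T) (hT5' : 2 * T5 ≤ T) (hT1000 : 1000 ≤ T)
    (hLbig : 100 ≤ Real.log T) (hLT : 4 * M * Real.log T ≤ T)
    (hn' : n0 ≤ n') (hn'L : (n' : ℝ) ≤ Real.log (T / 2) / 400) (hnn : n' ≤ n)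
    (hnT : (n : ℝ) ≤ (K + 1) * Real.log T) (S : Finset ℂ)
    (hS : ∀ s ∈ S, bad F n s ∧ T < s.im ∧ s.im ≤ 2 * T) :
    ∑ s ∈ S, wt F n s ≤ 24 * (2 * M + 1) * C * C5 * T * Real.log T ^ 3 * Real.exp (-(c * n')) := by
  classical
  have hM13 : 13 ≤ M := by rw [hM]; nlinarith
  have hT0 : 0 < T := by linarith
  set L := Real.log T with hL
  have hL0 : 0 < L := by linarith
  have hlog2 : Real.log 2 ≤ 1 := by
    have := Real.log_le_sub_one_of_pos (show (0 : ℝ) < 2 by norm_num)
    linarith
  have hhalf : Real.log (T / 2) = L - Real.log 2 := Real.log_div hT0.ne' (by norm_num)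
  have hhalf1 : Real.log (T / 2) ≤ L := Real.log_le_log (by positivity) (by linarith)
  have hdbl : Real.log (2 * T) = Real.log 2 + L := Real.log_mul (by norm_num) hT0.ne'
  have hdbl1 : L ≤ Real.log (2 * T) := Real.log_le_log hT0 (by linarith)
  have hlog3 : Real.log (3 * T) ≤ 2 * L := by
    rw [Real.log_mul (by norm_num) hT0.ne']
    have : Real.log 3 ≤ 2 := by
      have := Real.log_le_sub_one_of_pos (show (0 : ℝ) < 3 by norm_num)
      linarith
    linarith
  -- the map to the zeros of the lower derivative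
  have hZ : ∀ s : ℂ, ∃ z : ℂ, bad F n s → bad F n' z ∧ |s.im - z.im| ≤ M * L := by
    intro s
    by_cases hb : bad F n s
    · obtain ⟨z, hz1, hz2, hz3⟩ := iter_cir F hstrip hcir n' (n - n') s (by
        rw [Nat.add_sub_cancel' hnn]; exact hb)
      refine ⟨z, fun _ => ⟨hz1, hz3.trans ?_⟩⟩
      have h1 : ((n - n' : ℕ) : ℝ) ≤ n := by exact_mod_cast Nat.sub_le n n'
      rw [hM]
      calc ((n - n' : ℕ) : ℝ) * B ≤ ((K + 1) * L) * B := by
            apply mul_le_mul_of_nonneg_right _ (by linarith)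
            linarith
        _ = (K + 1) * B * L := by ring
    · exact ⟨0, fun h => absurd h hb⟩
  choose Z hZ using hZ
  set W := S.image Z with hW
  have hWmem : ∀ z ∈ W, bad F n' z ∧ T - M * L < z.im ∧ z.im ≤ 2 * T + M * L := by
    intro z hz
    rw [hW, Finset.mem_image] at hz
    obtain ⟨s, hs, rfl⟩ := hz
    obtain ⟨h1, h2, h3⟩ := hS s hs
    obtain ⟨h4, h5⟩ := hZ s h1
    have := abs_le.1 h5
    exact ⟨h4, by linarith, by linarith⟩
  -- the number of the lower zeros
  have hcard : (W.card : ℝ) ≤ 12 * C * T * Real.exp (-(c * n')) * L := by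
    have h1 : (W.card : ℝ) ≤ ∑ z ∈ W, wt F n' z := by
      rw [Finset.card_eq_sum_ones]
      push_cast
      exact Finset.sum_le_sum fun z hz => one_le_wt hF p hne n' z (hWmem z hz).1.1
    have h2 := split3 (wt F n') (wt_nonneg F n') W (fun z => z.im ≤ T) (fun z => T < z.im ∧ z.im ≤ 2 * T)
      (fun _ z => 2 * T < z.im) 1 (by
        intro z _
        rcases le_or_gt z.im T with h | h
        · exact Or.inl h
        · rcases le_or_gt z.im (2 * T) with h' | h'
          · exact Or.inr (Or.inl ⟨h, h'⟩)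
          · exact Or.inr (Or.inr ⟨0, one_pos, h'⟩))
    rw [Finset.sum_range_one] at h2
    have hA := hmid (T / 2) n' (by linarith) hn' hn'L (W.filter (fun z => z.im ≤ T)) (by
      intro z hz
      rw [Finset.mem_filter] at hz
      obtain ⟨h3, h4, h5⟩ := hWmem z hz.1
      exact ⟨h3, by linarith, by linarith [hz.2]⟩)
    have hB := hmid T n' (by linarith) hn' (by linarith)
      (W.filter (fun z => T < z.im ∧ z.im ≤ 2 * T)) (by
      intro z hz
      rw [Finset.mem_filter] at hz
      exact ⟨(hWmem z hz.1).1, hz.2⟩)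
    have hD := hmid (2 * T) n' (by linarith) hn' (by linarith)
      (W.filter (fun z => 2 * T < z.im)) (by
      intro z hz
      rw [Finset.mem_filter] at hz
      obtain ⟨h3, h4, h5⟩ := hWmem z hz.1
      exact ⟨h3, hz.2, by linarith⟩)
    have hE := Real.exp_pos (-(c * (n' : ℝ)))
    have hA' : C * (T / 2) * Real.exp (-(c * n')) * Real.log (T / 2) ≤
        C * (2 * T) * Real.exp (-(c * n')) * (2 * L) := by
      have : T / 2 ≤ 2 * T := by linarith
      have : Real.log (T / 2) ≤ 2 * L := by linarith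
      have : 0 ≤ Real.log (T / 2) := Real.log_nonneg (by linarith)
      gcongr
    have hB' : C * T * Real.exp (-(c * n')) * L ≤
        C * (2 * T) * Real.exp (-(c * n')) * (2 * L) := by
      have : T ≤ 2 * T := by linarith
      have : L ≤ 2 * L := by linarith
      gcongr
    have hD' : C * (2 * T) * Real.exp (-(c * n')) * Real.log (2 * T) ≤
        C * (2 * T) * Real.exp (-(c * n')) * (2 * L) := by
      have : Real.log (2 * T) ≤ 2 * L := by linarith
      gcongr
    have e : 12 * C * T * Real.exp (-(c * n')) * L =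
        C * (2 * T) * Real.exp (-(c * n')) * (2 * L) + C * (2 * T) * Real.exp (-(c * n')) * (2 * L) +
        C * (2 * T) * Real.exp (-(c * n')) * (2 * L) := by ring
    rw [e]
    refine h1.trans (h2.trans ?_)
    exact add_le_add (add_le_add (hA.trans hA') (hB.trans hB')) (hD.trans hD')
  -- the fibres
  have hmaps : ∀ s ∈ S, Z s ∈ W := fun s hs => Finset.mem_image_of_mem Z hs
  rw [← Finset.sum_fiberwise_of_maps_to hmaps]
  have hfib : ∀ z ∈ W, ∑ s ∈ S.filter (fun s => Z s = z), wt F n s ≤ 2 * (2 * M + 1) * C5 * L ^ 2 := by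
    intro z hz
    obtain ⟨-, hz1, hz2⟩ := hWmem z hz
    have hlow : T / 2 ≤ z.im - M * L := by linarith
    have h1 := window F (by linarith) hC5 hT5 hunit n (z.im - M * L) (2 * (M * L)) (by linarith) (by
        have h10 : Real.log (T / 2) ≤ Real.log (z.im - M * L) :=
          Real.log_le_log (by positivity) hlow
        have h11 : L / 2 ≤ Real.log (z.im - M * L) := by linarith
        calc (n : ℝ) ≤ (K + 1) * L := hnT
          _ = 2 * (K + 1) * (L / 2) := by ring
          _ ≤ _ := mul_le_mul_of_nonneg_left h11 (by linarith)) (by positivity) (S.filter (fun s => Z s = z)) (by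
        intro s hs
        rw [Finset.mem_filter] at hs
        obtain ⟨h3, h4, h5⟩ := hS s hs.1
        obtain ⟨-, h7⟩ := hZ s h3
        rw [hs.2] at h7
        have h8 := abs_le.1 h7
        exact ⟨by linarith, by linarith, h3.1⟩)
    refine h1.trans ?_
    have h2 : Real.log (z.im - M * L + 2 * (M * L)) ≤ 2 * L :=
      (Real.log_le_log (by linarith) (by linarith)).trans hlog3
    calc (2 * (M * L) + 1) * (C5 * Real.log (z.im - M * L + 2 * (M * L))) ≤
          ((2 * M + 1) * L) * (C5 * (2 * L)) := by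
          apply mul_le_mul (by linarith) (mul_le_mul_of_nonneg_left h2 hC5.le) _ (by positivity)
          exact mul_nonneg hC5.le (Real.log_nonneg (by linarith))
      _ = 2 * (2 * M + 1) * C5 * L ^ 2 := by ring
  calc ∑ z ∈ W, ∑ s ∈ S.filter (fun s => Z s = z), wt F n s ≤ ∑ _z ∈ W, 2 * (2 * M + 1) * C5 * L ^ 2 :=
        Finset.sum_le_sum hfib
    _ = W.card * (2 * (2 * M + 1) * C5 * L ^ 2) := by rw [Finset.sum_const, nsmul_eq_mul]
    _ ≤ (12 * C * T * Real.exp (-(c * n')) * L) * (2 * (2 * M + 1) * C5 * L ^ 2) :=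
        mul_le_mul_of_nonneg_right hcard (by positivity)
    _ = _ := by ring

/-- All `n`, dyadic windows. -/
def SDyF (F : ℂ → ℂ) : Prop := ∃ c C T0 : ℝ, 0 < c ∧ 0 < C ∧ 2 ≤ T0 ∧ ∀ (T : ℝ) (n : ℕ), T0 ≤ T →
  ∀ S : Finset ℂ, (∀ s ∈ S, bad F n s ∧ T < s.im ∧ s.im ≤ 2 * T) →
  ∑ s ∈ S, (analyticOrderNatAt (iteratedDeriv n F) s : ℝ) ≤ C * T * Real.exp (-(c * n)) * Real.log T

theorem sdy {B K : ℝ} (hD : DD B K F) (hstrip : Strip F B) (h1 : SMd F) (h3 : Cir F) (h4 : Unt F) :
    SDyF F := by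
  have hB := hD.B_ge
  have hK := hD.K_ge
  obtain ⟨c, C, T1, n0, hc, hC, hT1, hmid⟩ := h1
  obtain ⟨N, hlow⟩ := hD.low
  obtain ⟨C5, T5, hC5, hT5, hunit⟩ := h4 (2 * (K + 1)) (by linarith)
  obtain ⟨M, hM⟩ : ∃ M : ℝ, M = (K + 1) * B := ⟨_, rfl⟩
  have hM13 : 13 ≤ M := by rw [hM]; nlinarith
  set c' : ℝ := c / (800 * (K + 1)) with hc'
  have hc'0 : 0 < c' := by positivity
  set K2 : ℝ := 2 * (800 / c) ^ 2 with hK2
  have hK0 : 0 < K2 := by positivity
  set C' : ℝ := C + 4 * C5 * Real.exp (c * n0) + 24 * (2 * M + 1) * C * C5 * Real.exp (2 * c) * K2 with hC'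
  have hC'0 : 0 < C' := by positivity
  refine ⟨c', C', max (max (2 * T1) (2 * T5)) (Real.exp (1000 + 800 * n0 + N + 16 * M + K)), hc'0, hC'0, ?_, ?_⟩
  · exact le_trans (by linarith) ((le_max_left (2 * T1) (2 * T5)).trans (le_max_left _ _))
  intro T n hT S hS
  have hTT1 : 2 * T1 ≤ T := ((le_max_left _ _).trans (le_max_left _ _)).trans hT
  have hTT5 : 2 * T5 ≤ T := ((le_max_right _ _).trans (le_max_left _ _)).trans hT
  have hTe : Real.exp (1000 + 800 * n0 + N + 16 * M + K) ≤ T := (le_max_right _ _).trans hT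
  have hT0 : 0 < T := lt_of_lt_of_le (Real.exp_pos _) hTe
  set L := Real.log T with hL
  have hLb : 1000 + 800 * (n0 : ℝ) + N + 16 * M + K ≤ L := by
    rw [hL, Real.le_log_iff_exp_le hT0]; exact hTe
  have hn00 : (0 : ℝ) ≤ n0 := Nat.cast_nonneg _
  have hN0 : (0 : ℝ) ≤ N := Nat.cast_nonneg _
  have hn00' : (0 : ℝ) ≤ n := Nat.cast_nonneg _
  have hL1000 : 1000 ≤ L := by linarith
  have hL0 : 0 < L := by linarith
  have hTL : Real.exp L = T := Real.exp_log hT0
  have hLT : 4 * M * L ≤ T := by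
    have h10 : (L / 2) ^ 2 ≤ Real.exp L := by
      have h11 : L / 2 ≤ Real.exp (L / 2) := by
        have := Real.add_one_le_exp (L / 2)
        linarith
      have h12 : Real.exp L = Real.exp (L / 2) ^ 2 := by
        rw [← Real.exp_nat_mul]; congr 1; push_cast; ring
      rw [h12]
      exact pow_le_pow_left₀ (by positivity) h11 2
    rw [hTL] at h10
    nlinarith
  have hT1000 : 1000 ≤ T := by nlinarith
  have hlog2 : Real.log 2 ≤ 1 := by
    have := Real.log_le_sub_one_of_pos (show (0 : ℝ) < 2 by norm_num)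
    linarith
  have hlog20 : 0 ≤ Real.log 2 := Real.log_nonneg (by norm_num)
  have hdbl : Real.log (2 * T) = Real.log 2 + L := Real.log_mul (by norm_num) hT0.ne'
  have hhalf : Real.log (T / 2) = L - Real.log 2 := Real.log_div hT0.ne' (by norm_num)
  have hwt : ∑ s ∈ S, (analyticOrderNatAt (iteratedDeriv n F) s : ℝ) = ∑ s ∈ S, wt F n s := rfl
  rw [hwt]
  have hcc' : c' ≤ c := by rw [hc']; exact div_le_self hc.le (by linarith)
  rcases lt_or_ge n n0 with hcase | hcase
  · -- (i)
    have hnn0 : (n : ℝ) ≤ n0 := by exact_mod_cast hcase.le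
    have h10 := window F (by linarith) hC5 hT5 hunit n T T (by linarith) (by nlinarith) hT0.le S (by
      intro s hs
      obtain ⟨h1, h2, h3⟩ := hS s hs
      exact ⟨h2.le, by linarith, h1.1⟩)
    refine h10.trans ?_
    have h11 : Real.log (T + T) ≤ 2 * L := by
      rw [← two_mul, hdbl]; linarith
    have h12 : 1 ≤ Real.exp (c * n0) * Real.exp (-(c' * n)) := by
      rw [← Real.exp_add]
      apply Real.one_le_exp
      have : c' * n ≤ c * n0 := mul_le_mul hcc' hnn0 hn00' hc.le
      linarith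
    calc (T + 1) * (C5 * Real.log (T + T)) ≤ (2 * T) * (C5 * (2 * L)) := by
          apply mul_le_mul (by linarith) (mul_le_mul_of_nonneg_left h11 hC5.le) _ (by positivity)
          exact mul_nonneg hC5.le (Real.log_nonneg (by linarith))
      _ = 4 * C5 * T * L * 1 := by ring
      _ ≤ 4 * C5 * T * L * (Real.exp (c * n0) * Real.exp (-(c' * n))) :=
          mul_le_mul_of_nonneg_left h12 (by positivity)
      _ = (4 * C5 * Real.exp (c * n0)) * T * Real.exp (-(c' * n)) * L := by ring
      _ ≤ C' * T * Real.exp (-(c' * n)) * L := by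
          have : 4 * C5 * Real.exp (c * n0) ≤ C' := by
            rw [hC']
            have h13 : 0 ≤ 24 * (2 * M + 1) * C * C5 * Real.exp (2 * c) * K2 := by positivity
            linarith
          gcongr
  rcases le_or_gt (n : ℝ) (L / 400) with hcase2 | hcase2
  · -- (ii)
    have h10 := hmid T n (by linarith) hcase hcase2 S hS
    refine h10.trans ?_
    have h11 : Real.exp (-(c * n)) ≤ Real.exp (-(c' * n)) := by
      apply Real.exp_le_exp.2
      have := mul_le_mul_of_nonneg_right hcc' hn00'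
      linarith
    have h12 : C ≤ C' := by
      rw [hC']
      have h13 : 0 ≤ 24 * (2 * M + 1) * C * C5 * Real.exp (2 * c) * K2 := by positivity
      have h14 : 0 ≤ 4 * C5 * Real.exp (c * n0) := by positivity
      linarith
    gcongr
  rcases lt_or_ge (n : ℝ) (K * Real.log (2 * T)) with hcase3 | hcase3
  · -- (iii)
    have hnKL : (n : ℝ) ≤ (K + 1) * L := by
      have : K * Real.log (2 * T) ≤ K * (1 + L) := by gcongr; linarith
      nlinarith
    set n' : ℕ := ⌊Real.log (T / 2) / 400⌋₊ with hn'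
    have hpos : 0 ≤ Real.log (T / 2) / 400 := by
      rw [hhalf]; linarith
    have hn'1 : (n' : ℝ) ≤ Real.log (T / 2) / 400 := Nat.floor_le hpos
    have hn'2 : Real.log (T / 2) / 400 - 1 < n' := by
      have := Nat.lt_floor_add_one (Real.log (T / 2) / 400)
      linarith
    have hn'0 : n0 ≤ n' := by
      rw [hn']
      apply Nat.le_floor
      rw [hhalf]
      linarith
    have hnn : n' ≤ n := by
      have : (n' : ℝ) ≤ n := by linarith
      exact_mod_cast this
    have h10 := inter hD.diff _ hD.ne hB hK hM hstrip hC hmid hC5 hT5 hunit h3 T n n' hTT1 hTT5 hT1000 (by linarith) hLT hn'0 hn'1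
      hnn hnKL S hS
    refine h10.trans ?_
    have h11 : Real.exp (-(c * n')) ≤ Real.exp (2 * c) * Real.exp (-(c * L / 400)) := by
      rw [← Real.exp_add]
      apply Real.exp_le_exp.2
      have : c * (L / 400 - 2) ≤ c * n' := mul_le_mul_of_nonneg_left (by linarith) hc.le
      linarith
    have h12 : L ^ 2 ≤ K2 * Real.exp (c * L / 800) := by
      have h13 : (c * L / 800) ^ 2 / 2 ≤ Real.exp (c * L / 800) := by
        have := Real.quadratic_le_exp_of_nonneg (show 0 ≤ c * L / 800 by positivity)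
        have h14 : 0 ≤ c * L / 800 := by positivity
        linarith
      have h14 : L ^ 2 = K2 * ((c * L / 800) ^ 2 / 2) := by
        rw [hK2]; field_simp
      rw [h14]
      exact mul_le_mul_of_nonneg_left h13 hK0.le
    have h15 : Real.exp (c * L / 800) * Real.exp (-(c * L / 400)) ≤ Real.exp (-(c' * n)) := by
      rw [← Real.exp_add]
      apply Real.exp_le_exp.2
      have h16 : c' * n ≤ c' * ((K + 1) * L) := mul_le_mul_of_nonneg_left hnKL hc'0.le
      have h17 : c' * ((K + 1) * L) = c * L / 800 := by rw [hc']; field_simp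
      linarith
    calc 24 * (2 * M + 1) * C * C5 * T * L ^ 3 * Real.exp (-(c * n'))
        ≤ 24 * (2 * M + 1) * C * C5 * T * L ^ 3 * (Real.exp (2 * c) * Real.exp (-(c * L / 400))) := by gcongr
      _ = 24 * (2 * M + 1) * C * C5 * T * Real.exp (2 * c) * L * (L ^ 2 * Real.exp (-(c * L / 400))) := by ring
      _ ≤ 24 * (2 * M + 1) * C * C5 * T * Real.exp (2 * c) * L *
          ((K2 * Real.exp (c * L / 800)) * Real.exp (-(c * L / 400))) := by gcongr
      _ = 24 * (2 * M + 1) * C * C5 * Real.exp (2 * c) * K2 * T *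
          (Real.exp (c * L / 800) * Real.exp (-(c * L / 400))) * L := by ring
      _ ≤ 24 * (2 * M + 1) * C * C5 * Real.exp (2 * c) * K2 * T * Real.exp (-(c' * n)) * L := by gcongr
      _ ≤ C' * T * Real.exp (-(c' * n)) * L := by
          have : 24 * (2 * M + 1) * C * C5 * Real.exp (2 * c) * K2 ≤ C' := by
            rw [hC']
            have h14 : 0 ≤ 4 * C5 * Real.exp (c * n0) := by positivity
            linarith
          gcongr
  · -- (iv)
    have hnN : N ≤ n := by
      have : (N : ℝ) ≤ n := by nlinarith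
      exact_mod_cast this
    have hempty : S = ∅ := by
      apply Finset.eq_empty_of_forall_notMem
      intro s hs
      obtain ⟨h10, h11, h12⟩ := hS s hs
      refine hlow n hnN s ?_ h10
      rw [abs_of_pos (by linarith)]
      have h13 : 2 * T ≤ Real.exp (n / K) := by
        rw [← Real.log_le_iff_le_exp (by positivity), le_div_iff₀ (by linarith)]
        linarith
      linarith
    rw [hempty, Finset.sum_empty]
    positivity

end Pool.Agent.Y671.LD
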