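import Pool.Agent.Y671.LD.Dy

set_option autoImplicit false

/-!
# The final estimate for `F` (task SFin of project SD), given `SStrip`
-/

namespace Pool.Agent.Y671.LD

open Complex Filter Topology MeasureTheory Set
open Pool.Agent.H24R2.DZ (ra NN SCount SB2 SB3 SB1a SB1b)

variable {F : ℂ → ℂ}

/-- Zeros of a nonzero entire function in a compact set: finitely many. -/
lemma fin_zeros {g : ℂ → ℂ} (hg : Differentiable ℂ g) {a : ℂ} (ha : g a ≠ 0) {K : Set ℂ}
    (hK : IsCompact K) : {s | s ∈ K ∧ g s = 0}.Finite := by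
  have han : AnalyticOnNhd ℂ g univ := fun z _ => hg.analyticAt z
  by_contra hinf
  obtain ⟨z, hzK, hz⟩ := Set.Infinite.exists_accPt_of_subset_isCompact (s := {s | s ∈ K ∧ g s = 0}) hinf hK
    (fun s hs => hs.1)
  rw [accPt_iff_frequently_nhdsNE] at hz
  have h1 : ∃ᶠ y in 𝓝[≠] z, g y = 0 := hz.mono fun y hy => hy.2
  exact ha (han.eqOn_zero_of_preconnected_of_frequently_eq_zero isPreconnected_univ (mem_univ z) h1 (mem_univ a))

/-- low zeros -/
lemma low_bound (hF : Differentiable ℂ F) {B : ℝ} (p : ℂ) (hnz : ∀ n, iteratedDeriv n F p ≠ 0) (hst : Strip F B) (n : ℕ) (R : ℝ) : ∃ D : ℝ, 0 ≤ D ∧ ∀ S : Finset ℂ,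
    (∀ s ∈ S, bad F n s ∧ 0 < s.im ∧ s.im ≤ R) →
    ∑ s ∈ S, (analyticOrderNatAt (iteratedDeriv n F) s : ℝ) ≤ D := by
  have hne : iteratedDeriv n F p ≠ 0 := hnz n
  have hK : IsCompact (Icc (-B) B ×ℂ Icc (0 : ℝ) R) := isCompact_Icc.reProdIm isCompact_Icc
  have hfin := fin_zeros (iter_diff hF n) hne hK
  refine ⟨∑ s ∈ hfin.toFinset, (analyticOrderNatAt (iteratedDeriv n F) s : ℝ),
    Finset.sum_nonneg fun _ _ => Nat.cast_nonneg _, ?_⟩
  intro S hS
  apply Finset.sum_le_sum_of_subset_of_nonneg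
  · intro s hs
    obtain ⟨hb, h0, h1⟩ := hS s hs
    rw [Set.Finite.mem_toFinset]
    refine ⟨?_, hb.1⟩
    have := abs_le.1 (hst n s hb.1)
    rw [mem_reProdIm]
    exact ⟨⟨this.1, this.2⟩, ⟨h0.le, h1⟩⟩
  · intro _ _ _
    exact Nat.cast_nonneg _

/-- the low zeros, uniformly in `n` -/
lemma low_all (hF : Differentiable ℂ F) {B K : ℝ} (hK : 0 < K) (p : ℂ) (hnz : ∀ n, iteratedDeriv n F p ≠ 0)
    (hst : Strip F B) (h2 : ∃ N : ℕ, ∀ n : ℕ, N ≤ n → ∀ s : ℂ, |s.im| ≤ Real.exp (n / K) → ¬ bad F n s) (c R : ℝ) (hc : 0 < c) : ∃ D : ℝ, 0 ≤ D ∧ ∀ n : ℕ, ∀ S : Finset ℂ,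
    (∀ s ∈ S, bad F n s ∧ 0 < s.im ∧ s.im ≤ R) →
    ∑ s ∈ S, (analyticOrderNatAt (iteratedDeriv n F) s : ℝ) ≤ D * Real.exp (-(c * n)) := by
  obtain ⟨N, hN⟩ := h2
  obtain ⟨N', hN'⟩ : ∃ N' : ℕ, ∀ n : ℕ, N' ≤ n → R ≤ Real.exp (n / K) := by
    have h1 : Tendsto (fun n : ℕ => Real.exp ((n : ℝ) / K)) atTop atTop :=
      Real.tendsto_exp_atTop.comp (tendsto_natCast_atTop_atTop.atTop_div_const hK)
    obtain ⟨N', h⟩ := (h1.eventually_ge_atTop R).exists_forall_of_atTop
    exact ⟨N', h⟩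
  choose D hD0 hD using fun n => low_bound hF p hnz hst n R
  refine ⟨(∑ n ∈ Finset.range (max N N'), D n) * Real.exp (c * (max N N' : ℕ)),
    mul_nonneg (Finset.sum_nonneg fun _ _ => hD0 _) (Real.exp_pos _).le, ?_⟩
  intro n S hS
  rcases lt_or_ge n (max N N') with hn | hn
  · refine (hD n S hS).trans ?_
    have h3 : D n ≤ ∑ n ∈ Finset.range (max N N'), D n :=
      Finset.single_le_sum (f := D) (fun _ _ => hD0 _) (Finset.mem_range.2 hn)
    have h4 : 1 ≤ Real.exp (c * (max N N' : ℕ)) * Real.exp (-(c * n)) := by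
      rw [← Real.exp_add]
      apply Real.one_le_exp
      have : (n : ℝ) ≤ (max N N' : ℕ) := by exact_mod_cast hn.le
      nlinarith
    have h5 : 0 ≤ ∑ n ∈ Finset.range (max N N'), D n := Finset.sum_nonneg fun _ _ => hD0 _
    calc D n ≤ (∑ n ∈ Finset.range (max N N'), D n) * 1 := by rw [mul_one]; exact h3
      _ ≤ (∑ n ∈ Finset.range (max N N'), D n) * (Real.exp (c * (max N N' : ℕ)) * Real.exp (-(c * n))) :=
        mul_le_mul_of_nonneg_left h4 h5
      _ = _ := by ring
  · have h6 : S = ∅ := by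
      rw [Finset.eq_empty_iff_forall_notMem]
      intro s hs
      obtain ⟨hb, h0, h1⟩ := hS s hs
      refine hN n ((le_max_left _ _).trans hn) s ?_ hb
      rw [abs_of_pos h0]
      exact h1.trans (hN' n ((le_max_right _ _).trans hn))
    rw [h6, Finset.sum_empty]
    exact mul_nonneg (mul_nonneg (Finset.sum_nonneg fun _ _ => hD0 _) (Real.exp_pos _).le) (Real.exp_pos _).le

/-- dyadic summation -/
lemma dy_sum {c C T0 : ℝ} (hC : 0 < C) (hT0 : 2 ≤ T0) (n : ℕ)
    (h : ∀ T : ℝ, T0 ≤ T →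
      ∀ S : Finset ℂ, (∀ s ∈ S, bad F n s ∧ T < s.im ∧ s.im ≤ 2 * T) →
      ∑ s ∈ S, (analyticOrderNatAt (iteratedDeriv n F) s : ℝ) ≤ C * T * Real.exp (-(c * n)) * Real.log T)
    (k : ℕ) : ∀ U : ℝ, T0 ≤ U → U ≤ 2 ^ k * T0 → ∀ S : Finset ℂ,
      (∀ s ∈ S, bad F n s ∧ T0 < s.im ∧ s.im ≤ U) →
      ∑ s ∈ S, (analyticOrderNatAt (iteratedDeriv n F) s : ℝ) ≤
        2 * C * U * Real.exp (-(c * n)) * Real.log U := by
  induction k with
  | zero =>
    intro U hU hU' S hS
    have h6 : S = ∅ := by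
      rw [Finset.eq_empty_iff_forall_notMem]
      intro s hs
      obtain ⟨hb, h0, h1⟩ := hS s hs
      simp at hU'
      linarith
    rw [h6, Finset.sum_empty]
    have := Real.log_nonneg (show (1 : ℝ) ≤ U by linarith)
    have hU0 : 0 ≤ U := by linarith
    positivity
  | succ k ih =>
    intro U hU hU' S hS
    have hl : 0 ≤ Real.log U := Real.log_nonneg (show (1 : ℝ) ≤ U by linarith)
    have hU0 : 0 < U := by linarith
    have he := Real.exp_pos (-(c * n))
    rcases le_or_gt U (2 * T0) with hc | hc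
    · have h1 := h T0 le_rfl S (fun s hs => ⟨(hS s hs).1, (hS s hs).2.1, (hS s hs).2.2.trans hc⟩)
      refine h1.trans ?_
      have h2 : Real.log T0 ≤ Real.log U := Real.log_le_log (by linarith) hU
      have h3 : C * T0 * Real.exp (-(c * n)) * Real.log T0 ≤ C * U * Real.exp (-(c * n)) * Real.log U := by
        have h4 : 0 ≤ Real.log T0 := Real.log_nonneg (by linarith)
        gcongr
      have h5 : 0 ≤ C * U * Real.exp (-(c * n)) * Real.log U := by positivity
      linarith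
    · classical
      have hV : T0 ≤ U / 2 := by linarith
      have hV' : U / 2 ≤ 2 ^ k * T0 := by rw [pow_succ] at hU'; linarith
      have h1 := ih (U / 2) hV hV' (S.filter fun s => s.im ≤ U / 2) (by
        intro s hs
        rw [Finset.mem_filter] at hs
        exact ⟨(hS s hs.1).1, (hS s hs.1).2.1, hs.2⟩)
      have h2 := h (U / 2) hV (S.filter fun s => ¬ s.im ≤ U / 2) (by
        intro s hs
        rw [Finset.mem_filter, not_le] at hs
        exact ⟨(hS s hs.1).1, hs.2, by linarith [(hS s hs.1).2.2]⟩)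
      rw [← Finset.sum_filter_add_sum_filter_not S (fun s => s.im ≤ U / 2)]
      have h3 : Real.log (U / 2) ≤ Real.log U := Real.log_le_log (by linarith) (by linarith)
      have h4 : 0 ≤ Real.log (U / 2) := Real.log_nonneg (by linarith)
      have h5 : C * U * Real.exp (-(c * n)) * Real.log (U / 2) ≤ C * U * Real.exp (-(c * n)) * Real.log U := by
        gcongr
      have h6 : 0 ≤ C * U * Real.exp (-(c * n)) * Real.log U := by positivity
      have h7 : 2 * C * (U / 2) * Real.exp (-(c * n)) * Real.log (U / 2) +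
          C * (U / 2) * Real.exp (-(c * n)) * Real.log (U / 2) =
          3 / 2 * (C * U * Real.exp (-(c * n)) * Real.log (U / 2)) := by ring
      linarith

/-- The final estimate. -/
def SFinF (F : ℂ → ℂ) : Prop := ∃ c C : ℝ, 0 < c ∧ 0 < C ∧ ∀ (n : ℕ) (T : ℝ), 2 ≤ T →
  ∀ S : Finset ℂ, (∀ s ∈ S, bad F n s ∧ 0 < s.im ∧ s.im ≤ T) →
  ∑ s ∈ S, (analyticOrderNatAt (iteratedDeriv n F) s : ℝ) ≤ C * Real.exp (-(c * n)) * T * Real.log T

theorem sfin_of {B K : ℝ} (hDD : DD B K F) (hst : Strip F B) (h1 : SDyF F) : SFinF F := by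
  obtain ⟨c, C, T0, hc, hC, hT0, h⟩ := h1
  obtain ⟨D, hD0, hD⟩ := low_all hDD.diff (by linarith [hDD.K_ge]) _ hDD.ne hst hDD.low c T0 hc
  refine ⟨c, D + 2 * C, hc, by linarith, ?_⟩
  intro n T hT S hS
  classical
  have he := Real.exp_pos (-(c * n))
  have hl2 : 1 / 2 ≤ Real.log T := by
    have h3 : Real.log 2 ≤ Real.log T := Real.log_le_log (by norm_num) hT
    have := Real.log_two_gt_d9
    linarith
  have hTl : 1 ≤ T * Real.log T := by nlinarith
  have hlow := hD n (S.filter fun s => s.im ≤ T0) (by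
    intro s hs
    rw [Finset.mem_filter] at hs
    exact ⟨(hS s hs.1).1, (hS s hs.1).2.1, hs.2⟩)
  have hlow' : D * Real.exp (-(c * n)) ≤ D * Real.exp (-(c * n)) * T * Real.log T := by
    have : 0 ≤ D * Real.exp (-(c * n)) := by positivity
    nlinarith
  have hhigh : ∑ s ∈ S.filter (fun s => ¬ s.im ≤ T0), (analyticOrderNatAt (iteratedDeriv n F) s : ℝ) ≤
      2 * C * Real.exp (-(c * n)) * T * Real.log T := by
    rcases lt_or_ge T T0 with hTT | hTT
    · have h6 : S.filter (fun s => ¬ s.im ≤ T0) = ∅ := by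
        rw [Finset.filter_eq_empty_iff]
        intro s hs
        have := (hS s hs).2.2
        rw [not_not]; linarith
      rw [h6, Finset.sum_empty]
      have : 0 ≤ T * Real.log T := by linarith
      have h8 : 2 * C * Real.exp (-(c * n)) * T * Real.log T = 2 * C * Real.exp (-(c * n)) * (T * Real.log T) := by
        ring
      rw [h8]
      positivity
    · obtain ⟨k, hk⟩ : ∃ k : ℕ, T < 2 ^ k := pow_unbounded_of_one_lt T (by norm_num)
      have := dy_sum hC hT0 n (fun T hT => h T n hT) k T hTT (by nlinarith [pow_pos (show (0 : ℝ) < 2 by norm_num) k])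
        (S.filter fun s => ¬ s.im ≤ T0) (by
          intro s hs
          rw [Finset.mem_filter, not_le] at hs
          exact ⟨(hS s hs.1).1, hs.2, (hS s hs.1).2.2⟩)
      refine this.trans (le_of_eq ?_)
      ring
  rw [← Finset.sum_filter_add_sum_filter_not S (fun s => s.im ≤ T0)]
  calc _ ≤ D * Real.exp (-(c * n)) * T * Real.log T + 2 * C * Real.exp (-(c * n)) * T * Real.log T :=
        add_le_add (hlow.trans hlow') hhigh
    _ = _ := by ring

/-- Main theorem on derivatives, abstract form. -/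
theorem sfin {B K : ℝ} (hD : DD B K F) (sb2 : SB2) (sb3 : SB3) (sb1a : SB1a) (sb1b : SB1b)
    (scount : SCount) : SFinF F := by
  have hB : 0 < B := by linarith [hD.B_ge]
  have hst : Strip F B := strip_of_app hD.diff hD.app _ hD.ne
  have hcir : Cir F := cir_of_app hB hD.diff hD.symm hD.app _ hD.ne
  have hunit : Unt F := unit_of hB hD.diff hD.size hst sb2
  have hA : PtA F := pta hD.diff sb3
  have hPB : PtB F := ptb hD.diff hA sb1a sb1b
  have hmid : SMd F := mid' hD scount hunit hst hcir hA hPB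
  exact sfin_of hD hst (sdy hD hst hmid hcir hunit)

end Pool.Agent.Y671.LD
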