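import Pool.Agent.Y671.LD.Unit

set_option autoImplicit false

namespace Pool.Agent.Y671.LD

open Complex Filter Topology MeasureTheory Set
open Pool.Agent.H24R2.DZ (ra NN SCount)

variable {F : ℂ → ℂ}

theorem nn_mono {a η η' : ℝ} {F : ℂ → ℂ} (ha : 0 ≤ a) (h : η ≤ η') (hN : NN a η F) :
    NN a η' F := NN_mono hN h ha

/-- the situation at scale `j` near `t` -/
def GJ (F : ℂ → ℂ) (η T : ℝ) (n j : ℕ) (t : ℝ) : Prop :=
  ∃ t' : ℝ, |t - t'| ≤ ra T (2 ^ j * n) / 100 ∧
    NN (2 ^ j * n) η (fun z => F (I * t' + ra T (2 ^ j * n) * z))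

/-- the bad heights at scale `a` -/
def BB (F : ℂ → ℂ) (η T a : ℝ) : Set ℝ :=
  {t0 : ℝ | T / 2 ≤ t0 ∧ t0 ≤ 3 * T ∧ ¬ NN a η (fun z => F (I * t0 + ra T a * z))}

theorem int_sub_B {η T : ℝ} {n j : ℕ} {t δ : ℝ} (hT : 2 ≤ T) (h1 : T < t) (h2 : t ≤ 2 * T)
    (hδ : δ = ra T (2 ^ j * n) / 100) (hδ1 : δ ≤ 1) (hG : ¬ GJ F η T n j t) :
    Icc (t - δ) (t + δ) ⊆ BB F η T (2 ^ j * n) := by
  intro x hx
  refine ⟨by linarith [hx.1], by linarith [hx.2], fun hN => hG ⟨x, ?_, hN⟩⟩
  rw [← hδ, abs_le]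
  constructor <;> linarith [hx.1, hx.2]

theorem ra_eq (T a : ℝ) : ra T a = 2 * a / Real.log T := by
  unfold ra
  by_cases h : Real.log T = 0
  · rw [h]; simp
  · field_simp

/-- the largest scale -/
theorem exists_J {n : ℕ} {L : ℝ} (hn : 1 ≤ n) (hnL : (n : ℝ) ≤ L / 400) :
    ∃ J : ℕ, 1 ≤ J ∧ (2 : ℝ) ^ J * n ≤ L / 200 ∧ L / 400 < (2 : ℝ) ^ J * n := by
  classical
  have hn1 : (1 : ℝ) ≤ n := by exact_mod_cast hn
  have hL : 400 ≤ L := by linarith
  set J := Nat.findGreatest (fun j => (2 : ℝ) ^ j * n ≤ L / 200) ⌈L⌉₊ with hJ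
  have hP1 : (2 : ℝ) ^ 1 * n ≤ L / 200 := by rw [pow_one]; linarith
  have hc1 : 1 ≤ ⌈L⌉₊ := Nat.one_le_ceil_iff.2 (by linarith)
  have h1 : 1 ≤ J := Nat.le_findGreatest hc1 hP1
  have h2 : (2 : ℝ) ^ J * n ≤ L / 200 :=
    Nat.findGreatest_spec (P := fun j => (2 : ℝ) ^ j * n ≤ L / 200) hc1 hP1
  refine ⟨J, h1, h2, ?_⟩
  by_contra hcon
  push Not at hcon
  have h3 : (2 : ℝ) ^ (J + 1) * n ≤ L / 200 := by rw [pow_succ]; linarith
  have h4 : J + 1 ≤ ⌈L⌉₊ := by
    have h5 : ((J + 1 : ℕ) : ℝ) ≤ (2 : ℝ) ^ (J + 1) := by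
      exact_mod_cast (Nat.lt_two_pow_self (n := J + 1)).le
    have h6 : (2 : ℝ) ^ (J + 1) ≤ (2 : ℝ) ^ (J + 1) * n := le_mul_of_one_le_right (by positivity) hn1
    have h7 : ((J + 1 : ℕ) : ℝ) ≤ (⌈L⌉₊ : ℝ) := by
      have := Nat.le_ceil L
      linarith
    exact_mod_cast h7
  have h5 := Nat.le_findGreatest (P := fun j => (2 : ℝ) ^ j * n ≤ L / 200) h4 h3
  rw [← hJ] at h5
  omega

/-- splitting a sum according to a cover by three kinds of sets -/
theorem split3 (w : ℂ → ℝ) (hw : ∀ s, 0 ≤ w s) (S : Finset ℂ) (pc pf : ℂ → Prop) (p : ℕ → ℂ → Prop)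
    [DecidablePred pc] [DecidablePred pf] [∀ i, DecidablePred (p i)] (J : ℕ)
    (h : ∀ s ∈ S, pc s ∨ pf s ∨ ∃ i < J, p i s) :
    ∑ s ∈ S, w s ≤ ∑ s ∈ S.filter pc, w s + ∑ s ∈ S.filter pf, w s +
      ∑ i ∈ Finset.range J, ∑ s ∈ S.filter (p i), w s := by
  simp only [Finset.sum_filter]
  rw [Finset.sum_comm (s := Finset.range J), ← Finset.sum_add_distrib, ← Finset.sum_add_distrib]
  apply Finset.sum_le_sum
  intro s hs
  have hn : ∀ (q : Prop) [Decidable q], 0 ≤ (if q then w s else 0) := by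
    intro q _
    split_ifs
    · exact hw s
    · exact le_rfl
  have hsum : 0 ≤ ∑ i ∈ Finset.range J, (if p i s then w s else 0) :=
    Finset.sum_nonneg fun i _ => hn _
  rcases h s hs with h1 | h1 | ⟨i, hi, h1⟩
  · rw [if_pos h1]; linarith [hn (pf s)]
  · rw [if_pos h1]; linarith [hn (pc s)]
  · have h2 : w s ≤ ∑ i ∈ Finset.range J, (if p i s then w s else 0) := by
      have := Finset.single_le_sum (f := fun i => if p i s then w s else 0)
        (fun i _ => hn _) (Finset.mem_range.2 hi)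
      simp only [if_pos h1] at this
      exact this
    linarith [hn (pf s), hn (pc s)]

/-- the geometric sum -/
theorem geo (c1 : ℝ) (hc1 : 0 < c1) (n J : ℕ) (hn : 1 ≤ n) :
    ∑ i ∈ Finset.range J, Real.exp (-(c1 * (2 ^ i * n))) ≤
      Real.exp (-(c1 * n)) * (1 / (1 - Real.exp (-c1))) := by
  have hq0 : 0 ≤ Real.exp (-c1) := (Real.exp_pos _).le
  have hq1 : Real.exp (-c1) < 1 := Real.exp_lt_one_iff.2 (by linarith)
  have h1 : ∀ i ∈ Finset.range J, Real.exp (-(c1 * (2 ^ i * n))) ≤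
      Real.exp (-(c1 * n)) * Real.exp (-c1) ^ i := by
    intro i _
    rw [← Real.exp_nat_mul, ← Real.exp_add]
    apply Real.exp_le_exp.2
    have h2 : (n : ℝ) + i ≤ 2 ^ i * n := by
      have h3 : i + 1 ≤ 2 ^ i := Nat.lt_two_pow_self (n := i)
      have h4 : n + i ≤ 2 ^ i * n := by nlinarith
      exact_mod_cast h4
    nlinarith
  refine (Finset.sum_le_sum h1).trans ?_
  rw [← Finset.mul_sum]
  apply mul_le_mul_of_nonneg_left _ (Real.exp_pos _).le
  have h5 := (summable_geometric_of_lt_one hq0 hq1).sum_le_tsum (Finset.range J)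
    (fun i _ => pow_nonneg hq0 i)
  rw [tsum_geometric_of_lt_one hq0 hq1] at h5
  rw [one_div]
  exact h5

/-- few heights near zeros far from the line -/
theorem far_of {B K : ℝ} (hD : DD B K F) (hstrip : Strip F B) : ∃ c C T0 : ℝ, 0 < c ∧ 0 < C ∧ 2 ≤ T0 ∧ ∀ T : ℝ, T0 ≤ T →
    volume {t : ℝ | T / 2 ≤ t ∧ t ≤ 3 * T ∧ ∃ z : ℂ, F z = 0 ∧ 1 / 50 ≤ |z.re| ∧ |z.im - t| ≤ 1} ≤
    ENNReal.ofReal (C * T ^ (1 - c)) := by
  have hB := hD.B_ge
  obtain ⟨c, C, T0, hc, hC, hT0, h⟩ := hD.top (B + 1) (1 / 50) 1 (by linarith) (by norm_num) one_pos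
  refine ⟨c, C, T0, hc, hC, hT0, fun T hT => le_trans (measure_mono ?_) (h T hT)⟩
  rintro t ⟨h1, h2, z, hz, hre, him⟩
  refine ⟨h1, h2, fun hok => ?_⟩
  have hzB := hstrip 0 z (by rw [iteratedDeriv_zero]; exact hz)
  have key : ∀ w : ℂ, F w = 0 → 1 / 50 ≤ w.re → w.re ≤ B → |w.im - t| ≤ 1 → False := by
    intro w hw h3 h4 h5
    have h6 := hok (w - I * t) (by simpa using h3) (by
      have h7 := Complex.norm_le_abs_re_add_abs_im (w - I * t)
      have h8 : (w - I * t).re = w.re := by simp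
      have h9 : (w - I * t).im = w.im - t := by simp
      rw [h8, h9, abs_of_nonneg (by linarith)] at h7
      linarith)
    apply h6.1
    rw [show I * (t : ℂ) + (w - I * t) = w by ring]
    exact hw
  rcases le_total 0 z.re with h0 | h0
  · rw [abs_of_nonneg h0] at hre hzB
    exact key z hz hre hzB him
  · rw [abs_of_nonpos h0] at hre hzB
    refine key (-((starRingEnd ℂ) z)) (by rw [hD.symm, hz, map_zero]) (by simpa using hre) (by simpa using hzB) ?_
    simpa using him

/-- The middle range of `n`, in dyadic windows. -/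
def SMd (F : ℂ → ℂ) : Prop := ∃ c C T0 : ℝ, ∃ n0 : ℕ, 0 < c ∧ 0 < C ∧ 2 ≤ T0 ∧ ∀ (T : ℝ) (n : ℕ), T0 ≤ T → n0 ≤ n →
  (n : ℝ) ≤ Real.log T / 400 → ∀ S : Finset ℂ, (∀ s ∈ S, bad F n s ∧ T < s.im ∧ s.im ≤ 2 * T) →
  ∑ s ∈ S, (analyticOrderNatAt (iteratedDeriv n F) s : ℝ) ≤ C * T * Real.exp (-(c * n)) * Real.log T

theorem mid' {B K : ℝ} (hD : DD B K F) (h4 : SCount) (h5 : Unt F)
    (hstrip : Strip F B) (h6 : Cir F) (h7 : PtA F) (h8 : PtB F) : SMd F := by
  classical
  have hB := hD.B_ge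
  have hdiff := hD.diff
  obtain ⟨η4, C4, hη4, hC4, hcount⟩ := h4
  obtain ⟨η7, hη7, hptA⟩ := h7
  obtain ⟨η8, n8, hη8, hn8, hptB⟩ := h8
  set η := min η4 (min η7 η8) with hηd
  have hη : 0 < η := lt_min hη4 (lt_min hη7 hη8)
  have hηη4 : η ≤ η4 := min_le_left _ _
  have hηη7 : η ≤ η7 := (min_le_right _ _).trans (min_le_left _ _)
  have hηη8 : η ≤ η8 := (min_le_right _ _).trans (min_le_right _ _)
  obtain ⟨c1, C1, a1, T1, hc1, hC1, ha1, hT1, hsc1⟩ := hD.good η hη
  obtain ⟨c3, C3, T3, hc3, hC3, hT3, hfar⟩ := far_of hD hstrip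
  obtain ⟨C5, T5, hC5, hT5, hunit⟩ := h5 1 le_rfl
  have hq1 : Real.exp (-c1) < 1 := Real.exp_lt_one_iff.2 (by linarith)
  set Q : ℝ := 1 / (1 - Real.exp (-c1)) with hQ
  have hQ0 : 0 < Q := by rw [hQ]; apply one_div_pos.2; linarith
  refine ⟨min c1 c3, 40000 * C5 * C1 + 50 * C4 * C1 * Q + 4 * B * C5 * C3 / c3,
    max (max (max T1 (B ^ 2)) T3) (max (2 * T5) 1000), max n8 (max ⌈a1⌉₊ 1),
    lt_min hc1 hc3, by positivity, ?_, ?_⟩
  · exact le_trans (by norm_num) ((le_max_right _ _).trans (le_max_right _ _))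
  intro T n hT hn hnL S hS
  -- unpack the sizes
  have hTT1 : T1 ≤ T := ((le_max_left _ _).trans ((le_max_left _ _).trans (le_max_left _ _))).trans hT
  have hTB : B ^ 2 ≤ T := ((le_max_right _ _).trans ((le_max_left _ _).trans (le_max_left _ _))).trans hT
  have hTT3 : T3 ≤ T := ((le_max_right _ _).trans (le_max_left _ _)).trans hT
  have hTT5 : 2 * T5 ≤ T := ((le_max_left _ _).trans (le_max_right _ _)).trans hT
  have hT1000 : 1000 ≤ T := ((le_max_right _ _).trans (le_max_right _ _)).trans hT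
  have hT0 : 0 < T := by linarith
  have hn8' : n8 ≤ n := (le_max_left _ _).trans hn
  have hna1 : a1 ≤ n := by
    have : ⌈a1⌉₊ ≤ n := ((le_max_left _ _).trans (le_max_right _ _)).trans hn
    exact (Nat.le_ceil a1).trans (by exact_mod_cast this)
  have hn1 : 1 ≤ n := ((le_max_right _ _).trans (le_max_right _ _)).trans hn
  have hn1' : (1 : ℝ) ≤ n := by exact_mod_cast hn1
  set L := Real.log T with hL
  have hL400 : 400 ≤ L := by linarith
  have hL0 : 0 < L := by linarith
  have hLT : L ≤ T := by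
    have := Real.log_le_sub_one_of_pos hT0
    linarith
  have hnB : (n : ℝ) * B ≤ T / 8 := by
    have hs : 0 < Real.sqrt T := Real.sqrt_pos.2 hT0
    have h1 : L ≤ 2 * Real.sqrt T := by
      have h2 : L = 2 * Real.log (Real.sqrt T) := by
        rw [hL, Real.log_sqrt hT0.le]; ring
      have := Real.log_le_sub_one_of_pos hs
      rw [h2]; linarith
    have h3 : B ≤ Real.sqrt T := by
      apply Real.le_sqrt_of_sq_le hTB
    have h4 : Real.sqrt T * Real.sqrt T = T := Real.mul_self_sqrt hT0.le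
    calc (n : ℝ) * B ≤ (Real.sqrt T / 8) * Real.sqrt T := by
          apply mul_le_mul _ h3 (by linarith) (by positivity)
          linarith
      _ = T / 8 := by rw [div_mul_eq_mul_div, h4]
  have hnB0 : 0 ≤ (n : ℝ) * B := by positivity
  have hnBL : (n : ℝ) * B ≤ B * L / 400 := by
    have := mul_le_mul_of_nonneg_right hnL (show 0 ≤ B by linarith)
    linarith
  have hBL : 200 ≤ B * L := by nlinarith
  have hlog3 : Real.log (3 * T) ≤ 2 * L := by
    rw [Real.log_mul (by norm_num) hT0.ne']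
    have : Real.log 3 ≤ 2 := by
      have := Real.log_le_sub_one_of_pos (show (0 : ℝ) < 3 by norm_num)
      linarith
    linarith
  have hloghalf : ∀ x : ℝ, T / 2 ≤ x → (n : ℝ) ≤ 1 * Real.log x := by
    intro x hx
    have h10 : Real.log (T / 2) ≤ Real.log x := Real.log_le_log (by positivity) hx
    have h11 : Real.log (T / 2) = L - Real.log 2 := by
      rw [Real.log_div hT0.ne' (by norm_num)]
    have h12 : Real.log 2 ≤ 1 := by
      have := Real.log_le_sub_one_of_pos (show (0 : ℝ) < 2 by norm_num)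
      linarith
    linarith
  obtain ⟨J, hJ1, hJ2, hJ3⟩ := exists_J hn1 hnL
  -- the radii
  have hr : ∀ j : ℕ, ra T (2 ^ j * n) = 2 * (2 ^ j * n) / L := fun j => ra_eq _ _
  have hrpos : ∀ j : ℕ, 0 < ra T (2 ^ j * n) := by
    intro j; rw [hr]; positivity
  have hrJ1 : ra T (2 ^ J * n) ≤ 1 / 100 := by
    rw [hr, div_le_iff₀ hL0]; linarith
  have hrJ2 : 1 / 200 < ra T (2 ^ J * n) := by
    rw [hr, lt_div_iff₀ hL0]; linarith
  have hpow : ∀ j : ℕ, j ≤ J → (2 : ℝ) ^ j * n ≤ L / 200 := by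
    intro j hj
    refine le_trans ?_ hJ2
    apply mul_le_mul_of_nonneg_right _ (by positivity)
    exact pow_le_pow_right₀ (by norm_num) hj
  have hpow1 : ∀ j : ℕ, (n : ℝ) ≤ 2 ^ j * n := by
    intro j
    exact le_mul_of_one_le_left (by positivity) (one_le_pow₀ (by norm_num))
  have hrj : ∀ j : ℕ, j ≤ J → ra T (2 ^ j * n) ≤ 1 / 100 := by
    intro j hj
    rw [hr, div_le_iff₀ hL0]
    have := hpow j hj
    linarith
  -- bad heights
  have hBvol : ∀ j : ℕ, j ≤ J → volume (BB F η T (2 ^ j * n)) ≤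
      ENNReal.ofReal (C1 * T * Real.exp (-(c1 * (2 ^ j * n)))) := by
    intro j hj
    exact hsc1 T (2 ^ j * n) hTT1 (hna1.trans (hpow1 j)) (hpow j hj)
  -- covering of `S`
  have hcov : ∀ s ∈ S, ¬ GJ F η T n J s.im ∨ 5 * ra T (2 ^ J * n) < |s.re| ∨
      ∃ i < J, ¬ GJ F η T n i s.im ∧ GJ F η T n (i + 1) s.im ∧ |s.re| ≤ 5 * ra T (2 ^ (i + 1) * n) := by
    intro s hs
    obtain ⟨hbad, hs1, hs2⟩ := hS s hs
    by_cases hc : GJ F η T n J s.im
    swap
    · exact Or.inl hc
    by_cases hf : 5 * ra T (2 ^ J * n) < |s.re|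
    · exact Or.inr (Or.inl hf)
    right; right
    have hloc : ∀ (η' : ℝ) (j0 : ℕ), η ≤ η' → (∀ j, j0 ≤ j → j ≤ J → GJ F η T n j s.im) →
        Loc F η' T n j0 J s.im := by
      intro η' j0 hη' h j hj1 hj2
      obtain ⟨t', ht1, ht2⟩ := h j hj1 hj2
      exact ⟨t', ht1, nn_mono (by positivity) hη' ht2⟩
    by_cases hall : ∀ j, j ≤ J → GJ F η T n j s.im
    · exfalso
      exact hf (hptB T n J s (by linarith) hn8' hbad (hloc η8 0 hηη8 fun j _ hj => hall j hj))
    · push Not at hall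
      obtain ⟨j1, hj1, hj1'⟩ := hall
      set i := Nat.findGreatest (fun j => ¬ GJ F η T n j s.im) J with hi
      have hi1 : ¬ GJ F η T n i s.im :=
        Nat.findGreatest_spec (P := fun j => ¬ GJ F η T n j s.im) hj1 hj1'
      have hi2 : i ≤ J := Nat.findGreatest_le J
      have hi3 : i < J := by
        rcases hi2.lt_or_eq with h | h
        · exact h
        · rw [h] at hi1; exact absurd hc hi1
      have hi4 : ∀ j, i + 1 ≤ j → j ≤ J → GJ F η T n j s.im := by
        intro j hj1 hj2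
        by_contra hcon
        have := Nat.le_findGreatest (P := fun j => ¬ GJ F η T n j s.im) hj2 hcon
        rw [← hi] at this
        omega
      refine ⟨i, hi3, hi1, hi4 (i + 1) le_rfl hi3, ?_⟩
      have h10 := hptA T n J (i + 1) s (by linarith) hn1 hi3 hbad.1 (hloc η7 (i + 1) hηη7 hi4)
      exact h10.resolve_right hf
  have hsplit := split3 (wt F n) (wt_nonneg F n) S (fun s => ¬ GJ F η T n J s.im)
    (fun s => 5 * ra T (2 ^ J * n) < |s.re|)
    (fun i s => ¬ GJ F η T n i s.im ∧ GJ F η T n (i + 1) s.im ∧ |s.re| ≤ 5 * ra T (2 ^ (i + 1) * n))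
    J hcov
  -- the class (c)
  have hbc : ∑ s ∈ S.filter (fun s => ¬ GJ F η T n J s.im), wt F n s ≤
      40000 * C5 * C1 * T * Real.exp (-(c1 * n)) * L := by
    have hδ0 : 0 < ra T (2 ^ J * n) / 100 := by have := hrpos J; positivity
    have h10 := cover (wt F n) (wt_nonneg F n) (fun s => s.im) (ra T (2 ^ J * n) / 100) (4 * C5 * L)
      hδ0 (by positivity) (S.filter (fun s => ¬ GJ F η T n J s.im))
      (BB F η T (2 ^ J * n)) (C1 * T * Real.exp (-(c1 * (2 ^ J * n)))) (by positivity)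
      (by
        intro s hs
        rw [Finset.mem_filter] at hs
        obtain ⟨hbad, hs1, hs2⟩ := hS s hs.1
        exact int_sub_B (by linarith) hs1 hs2 rfl (by linarith) hs.2)
      (hBvol J le_rfl)
      (by
        intro s0 hs0
        obtain ⟨hbad0, hs1, hs2⟩ := hS s0 ((Finset.filter_subset _ _) hs0)
        have h11 := window F zero_le_one hC5 hT5 hunit n (s0.im - 2 * (ra T (2 ^ J * n) / 100))
          (4 * (ra T (2 ^ J * n) / 100)) (by linarith) (hloghalf _ (by linarith)) (by positivity)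
          ((S.filter (fun s => ¬ GJ F η T n J s.im)).filter
            (fun s' => |s'.im - s0.im| ≤ 2 * (ra T (2 ^ J * n) / 100))) (by
            intro s hs
            rw [Finset.mem_filter] at hs
            obtain ⟨hbad, hs3, hs4⟩ := hS s ((Finset.filter_subset _ _) hs.1)
            have := abs_le.1 hs.2
            exact ⟨by linarith, by linarith, hbad.1⟩)
        refine h11.trans ?_
        have h12 : Real.log (s0.im - 2 * (ra T (2 ^ J * n) / 100) + 4 * (ra T (2 ^ J * n) / 100)) ≤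
            2 * L := (Real.log_le_log (by linarith) (by linarith)).trans hlog3
        have h13 : 4 * (ra T (2 ^ J * n) / 100) + 1 ≤ 2 := by linarith
        calc (4 * (ra T (2 ^ J * n) / 100) + 1) *
              (C5 * Real.log (s0.im - 2 * (ra T (2 ^ J * n) / 100) + 4 * (ra T (2 ^ J * n) / 100)))
            ≤ 2 * (C5 * (2 * L)) := by
              apply mul_le_mul h13 (mul_le_mul_of_nonneg_left h12 hC5.le) _ (by norm_num)
              apply mul_nonneg hC5.le (Real.log_nonneg (by linarith))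
          _ = 4 * C5 * L := by ring)
    refine h10.trans ?_
    rw [div_le_iff₀ (by positivity)]
    have h14 : Real.exp (-(c1 * (2 ^ J * n))) ≤ Real.exp (-(c1 * n)) := by
      apply Real.exp_le_exp.2
      have := mul_le_mul_of_nonneg_left (hpow1 J) hc1.le
      linarith
    have h15 : (1 : ℝ) / 10000 ≤ 2 * (ra T (2 ^ J * n) / 100) := by linarith
    have h16 : 0 ≤ 40000 * C5 * C1 * T * Real.exp (-(c1 * n)) * L := by positivity
    calc 4 * C5 * L * (C1 * T * Real.exp (-(c1 * (2 ^ J * n))))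
        ≤ 4 * C5 * L * (C1 * T * Real.exp (-(c1 * n))) := by gcongr
      _ = 40000 * C5 * C1 * T * Real.exp (-(c1 * n)) * L * (1 / 10000) := by ring
      _ ≤ _ := mul_le_mul_of_nonneg_left h15 h16
  -- the classes (b)
  have hbi : ∀ i ∈ Finset.range J, ∑ s ∈ S.filter (fun s => ¬ GJ F η T n i s.im ∧
      GJ F η T n (i + 1) s.im ∧ |s.re| ≤ 5 * ra T (2 ^ (i + 1) * n)), wt F n s ≤
      50 * C4 * C1 * T * L * Real.exp (-(c1 * (2 ^ i * n))) := by
    intro i hi
    rw [Finset.mem_range] at hi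
    have hri := hrpos i
    have hri1 := hrpos (i + 1)
    have hdouble : ra T (2 ^ (i + 1) * n) = 2 * ra T (2 ^ i * n) := by
      rw [hr, hr, pow_succ]; ring
    have hδ0 : 0 < ra T (2 ^ i * n) / 100 := by positivity
    have h10 := cover (wt F n) (wt_nonneg F n) (fun s => s.im) (ra T (2 ^ i * n) / 100)
      (C4 * (2 ^ (i + 1) * n)) hδ0 (by positivity)
      (S.filter (fun s => ¬ GJ F η T n i s.im ∧
        GJ F η T n (i + 1) s.im ∧ |s.re| ≤ 5 * ra T (2 ^ (i + 1) * n)))
      (BB F η T (2 ^ i * n)) (C1 * T * Real.exp (-(c1 * (2 ^ i * n)))) (by positivity)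
      (by
        intro s hs
        rw [Finset.mem_filter] at hs
        obtain ⟨hbad, hs1, hs2⟩ := hS s hs.1
        exact int_sub_B (by linarith) hs1 hs2 rfl (by linarith [hrj i hi.le]) hs.2.1)
      (hBvol i hi.le)
      (by
        intro s0 hs0
        rw [Finset.mem_filter] at hs0
        obtain ⟨hs0S, -, ⟨t', ht1, ht2⟩, -⟩ := hs0
        have h11 := hcount (2 ^ (i + 1) * n) (ra T (2 ^ (i + 1) * n)) t' n F
          (hn1'.trans (hpow1 _)) (hpow1 _) hri1 hdiff (nn_mono (by positivity) hηη4 ht2)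
          ((S.filter (fun s => ¬ GJ F η T n i s.im ∧
            GJ F η T n (i + 1) s.im ∧ |s.re| ≤ 5 * ra T (2 ^ (i + 1) * n))).filter
            (fun s' => |s'.im - s0.im| ≤ 2 * (ra T (2 ^ i * n) / 100))) (by
            intro s hs
            rw [Finset.mem_filter, Finset.mem_filter] at hs
            obtain ⟨⟨hsS, -, -, hre⟩, him⟩ := hs
            refine ⟨?_, (hS s hsS).1.1⟩
            have h12 : (s - I * t').re = s.re := by simp
            have h13 : (s - I * t').im = s.im - t' := by simp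
            have h14 := Complex.norm_le_abs_re_add_abs_im (s - I * t')
            rw [h12, h13] at h14
            have h15 : |s.im - t'| ≤ |s.im - s0.im| + |s0.im - t'| := abs_sub_le _ _ _
            linarith)
        exact h11)
    refine h10.trans (le_of_eq ?_)
    rw [hr i, pow_succ]
    field_simp
    ring
  have hbb : ∑ i ∈ Finset.range J, ∑ s ∈ S.filter (fun s => ¬ GJ F η T n i s.im ∧
      GJ F η T n (i + 1) s.im ∧ |s.re| ≤ 5 * ra T (2 ^ (i + 1) * n)), wt F n s ≤
      50 * C4 * C1 * Q * T * Real.exp (-(c1 * n)) * L := by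
    refine (Finset.sum_le_sum hbi).trans ?_
    rw [← Finset.mul_sum]
    calc 50 * C4 * C1 * T * L * ∑ i ∈ Finset.range J, Real.exp (-(c1 * (2 ^ i * n)))
        ≤ 50 * C4 * C1 * T * L * (Real.exp (-(c1 * n)) * Q) :=
          mul_le_mul_of_nonneg_left (geo c1 hc1 n J hn1) (by positivity)
      _ = _ := by ring
  -- the far zeros
  have hbf : ∑ s ∈ S.filter (fun s => 5 * ra T (2 ^ J * n) < |s.re|), wt F n s ≤
      4 * B * C5 * C3 / c3 * T * Real.exp (-(c3 * n)) * L := by
    have hZ : ∀ s : ℂ, ∃ z : ℂ, bad F n s → bad F 0 z ∧ |s.re| ≤ |z.re| ∧ |s.im - z.im| ≤ n * B := by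
      intro s
      by_cases hb : bad F n s
      · obtain ⟨z, hz⟩ := iter_cir F hstrip h6 0 n s (by rw [zero_add]; exact hb)
        exact ⟨z, fun _ => hz⟩
      · exact ⟨0, fun h => absurd h hb⟩
    choose Z hZ using hZ
    have hE := hfar T hTT3
    have h10 := cover (wt F n) (wt_nonneg F n) (fun s => (Z s).im) 1 (4 * B * C5 * L ^ 2)
      one_pos (by positivity) (S.filter (fun s => 5 * ra T (2 ^ J * n) < |s.re|))
      _ (C3 * T ^ (1 - c3)) (by positivity)
      (by
        intro s hs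
        rw [Finset.mem_filter] at hs
        obtain ⟨hbad, hs1, hs2⟩ := hS s hs.1
        obtain ⟨hz1, hz2, hz3⟩ := hZ s hbad
        have hz4 := abs_le.1 hz3
        intro x hx
        refine ⟨?_, ?_, Z s, ?_, ?_, ?_⟩
        · linarith [hx.1, hz4.1, hz4.2]
        · linarith [hx.2, hz4.1, hz4.2]
        · have := hz1.1
          simpa using this
        · linarith [hs.2]
        · rw [abs_le]; constructor <;> linarith [hx.1, hx.2])
      hE
      (by
        intro s0 hs0
        obtain ⟨hbad0, hs1, hs2⟩ := hS s0 ((Finset.filter_subset _ _) hs0)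
        obtain ⟨-, -, hz3⟩ := hZ s0 hbad0
        have hz4 := abs_le.1 hz3
        have h11 := window F zero_le_one hC5 hT5 hunit n ((Z s0).im - 2 - n * B) (4 + 2 * (n * B)) (by linarith)
          (hloghalf _ (by linarith)) (by positivity)
          ((S.filter (fun s => 5 * ra T (2 ^ J * n) < |s.re|)).filter
            (fun s' => |(Z s').im - (Z s0).im| ≤ 2 * 1)) (by
            intro s hs
            rw [Finset.mem_filter] at hs
            obtain ⟨hbad, hs3, hs4⟩ := hS s ((Finset.filter_subset _ _) hs.1)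
            obtain ⟨-, -, hz5⟩ := hZ s hbad
            have h12 := abs_le.1 hs.2
            have h13 := abs_le.1 hz5
            exact ⟨by linarith, by linarith, hbad.1⟩)
        refine h11.trans ?_
        have h12 : Real.log ((Z s0).im - 2 - n * B + (4 + 2 * (n * B))) ≤
            2 * L := (Real.log_le_log (by linarith) (by linarith)).trans hlog3
        have h13 : (4 : ℝ) + 2 * (n * B) + 1 ≤ 2 * B * L := by linarith
        calc (4 + 2 * ((n : ℝ) * B) + 1) * (C5 * Real.log ((Z s0).im - 2 - n * B + (4 + 2 * (n * B))))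
            ≤ (2 * B * L) * (C5 * (2 * L)) := by
              apply mul_le_mul h13 (mul_le_mul_of_nonneg_left h12 hC5.le) _ (by positivity)
              apply mul_nonneg hC5.le (Real.log_nonneg (by linarith))
          _ = 4 * B * C5 * L ^ 2 := by ring)
    refine h10.trans ?_
    have hTc : T ^ (1 - c3) = T * Real.exp (-(c3 * L)) := by
      rw [Real.rpow_sub hT0, Real.rpow_one, Real.rpow_def_of_pos hT0, div_eq_mul_inv, ← Real.exp_neg]
      congr 3
      ring
    rw [hTc]
    have h14 : L * Real.exp (-(c3 * L)) ≤ 2 / c3 * Real.exp (-(c3 * n)) := by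
      have h15 : c3 * L / 2 ≤ Real.exp (c3 * L / 2) := by
        have := Real.add_one_le_exp (c3 * L / 2)
        linarith
      have h16 : Real.exp (-(c3 * L)) * Real.exp (c3 * L / 2) ≤ Real.exp (-(c3 * n)) := by
        rw [← Real.exp_add]
        apply Real.exp_le_exp.2
        have : c3 * n ≤ c3 * (L / 400) := mul_le_mul_of_nonneg_left hnL hc3.le
        have h17 : 0 < c3 * L := by positivity
        linarith
      have h18 : L * Real.exp (-(c3 * L)) = 2 / c3 * (c3 * L / 2 * Real.exp (-(c3 * L))) := by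
        field_simp
      rw [h18]
      apply mul_le_mul_of_nonneg_left _ (by positivity)
      calc c3 * L / 2 * Real.exp (-(c3 * L)) ≤ Real.exp (c3 * L / 2) * Real.exp (-(c3 * L)) :=
            mul_le_mul_of_nonneg_right h15 (Real.exp_pos _).le
        _ = Real.exp (-(c3 * L)) * Real.exp (c3 * L / 2) := mul_comm _ _
        _ ≤ _ := h16
    calc 4 * B * C5 * L ^ 2 * (C3 * (T * Real.exp (-(c3 * L)))) / (2 * 1)
        = 2 * B * C5 * C3 * T * L * (L * Real.exp (-(c3 * L))) := by ring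
      _ ≤ 2 * B * C5 * C3 * T * L * (2 / c3 * Real.exp (-(c3 * n))) :=
          mul_le_mul_of_nonneg_left h14 (by positivity)
      _ = _ := by ring
  -- conclusion
  have he1 : Real.exp (-(c1 * n)) ≤ Real.exp (-(min c1 c3 * n)) := by
    apply Real.exp_le_exp.2
    have := mul_le_mul_of_nonneg_right (min_le_left c1 c3) (Nat.cast_nonneg (α := ℝ) n)
    linarith
  have he3 : Real.exp (-(c3 * n)) ≤ Real.exp (-(min c1 c3 * n)) := by
    apply Real.exp_le_exp.2
    have := mul_le_mul_of_nonneg_right (min_le_right c1 c3) (Nat.cast_nonneg (α := ℝ) n)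
    linarith
  have hfin : ∑ s ∈ S, wt F n s ≤ (40000 * C5 * C1 + 50 * C4 * C1 * Q + 4 * B * C5 * C3 / c3) * T *
      Real.exp (-(min c1 c3 * n)) * L := by
    calc ∑ s ∈ S, wt F n s ≤ _ := hsplit
      _ ≤ 40000 * C5 * C1 * T * Real.exp (-(c1 * n)) * L +
          4 * B * C5 * C3 / c3 * T * Real.exp (-(c3 * n)) * L +
          50 * C4 * C1 * Q * T * Real.exp (-(c1 * n)) * L := by
          exact add_le_add (add_le_add hbc hbf) hbb
      _ ≤ 40000 * C5 * C1 * T * Real.exp (-(min c1 c3 * n)) * L +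
          4 * B * C5 * C3 / c3 * T * Real.exp (-(min c1 c3 * n)) * L +
          50 * C4 * C1 * Q * T * Real.exp (-(min c1 c3 * n)) * L := by gcongr
      _ = _ := by ring
  exact hfin

end Pool.Agent.Y671.LD
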