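import Pool.Agent.H24R2.DZ.Spec

set_option autoImplicit false

/-!
# Zeros of the derivatives and of the heat flow of a completed L-function: abstract form

`F` is the completed L-function in a normalisation in which the critical line is the imaginary axis, the
zeros are in `|Re z| ≤ B` and the logarithmic derivative at height `t` to the right is `(log t) / 2 + O(1)`
(`F z = Λ (1/2 + z / d)` for an L-function of degree `d`). The definitions `NN`, `ra` and the local theory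
are those of the starting modules `Pool.Agent.H24R2.DZ` (zeta function).
-/

namespace Pool.Agent.Y671.LD

open Complex Filter Topology MeasureTheory Set Polynomial
open Pool.Agent.H24R2.JP (Om)
open Pool.Agent.H24R2.DZ (ra NN)

/-- Bad zeros: off the critical line or multiple. -/
def bad (F : ℂ → ℂ) (n : ℕ) (s : ℂ) : Prop :=
  iteratedDeriv n F s = 0 ∧ (s.re ≠ 0 ∨ iteratedDeriv (n + 1) F s = 0)

/-- At height `t`, in the part `Re z ≥ ε0` of the disc of radius `R`, there are no zeros and the logarithmic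
derivative is close to `Om t`. -/
def FarOK (F : ℂ → ℂ) (R ε0 η t : ℝ) : Prop := ∀ z : ℂ, ε0 ≤ z.re → ‖z‖ ≤ R →
  F (I * t + z) ≠ 0 ∧ ‖logDeriv F (I * t + z) - (Om t : ℂ)‖ ≤ η * Om t

/-- The data for the theorem on derivatives. -/
structure DD (B K : ℝ) (F : ℂ → ℂ) : Prop where
  B_ge : 1 / 2 ≤ B
  K_ge : 25 ≤ K
  diff : Differentiable ℂ F
  symm : ∀ z : ℂ, F (-((starRingEnd ℂ) z)) = (starRingEnd ℂ) (F z)
  /-- locally uniform limit of polynomials with zeros in the strip -/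
  app : ∃ Q : ℕ → ℂ[X], (∀ N (z : ℂ), (Q N).IsRoot z → |z.re| ≤ B) ∧
    TendstoLocallyUniformly (fun (N : ℕ) (z : ℂ) => (Q N).eval z) F atTop
  /-- size on large discs, relative to a size `h t > 0` -/
  size : ∃ h : ℝ → ℝ, (∀ t, 0 < h t) ∧ ∀ R : ℝ, ∃ K T0 : ℝ, 1 ≤ T0 ∧ ∀ (t : ℝ) (u : ℂ), T0 ≤ t → ‖u‖ ≤ R →
    ‖F (I * t + u)‖ ≤ Real.exp (K * Real.log t) * h t ∧
    (10 * B ≤ u.re → F (I * t + u) ≠ 0 ∧
      Real.exp (-(K * Real.log t)) * h t ≤ ‖F (I * t + u)‖ ∧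
      ‖logDeriv F (I * t + u) - ((Real.log t / 2 : ℝ) : ℂ)‖ ≤ K)
  /-- not an exponential times a polynomial -/
  ne : ∀ n : ℕ, iteratedDeriv n F (10 * B) ≠ 0
  /-- the low-lying range -/
  low : ∃ N : ℕ, ∀ n : ℕ, N ≤ n → ∀ s : ℂ, |s.im| ≤ Real.exp (n / K) → ¬ bad F n s
  /-- most points are good at all scales -/
  good : ∀ η : ℝ, 0 < η → ∃ c C a0 T0 : ℝ, 0 < c ∧ 0 < C ∧ 1 ≤ a0 ∧ 2 ≤ T0 ∧ ∀ T a : ℝ, T0 ≤ T → a0 ≤ a →
    a ≤ Real.log T / 200 → volume {t0 : ℝ | T / 2 ≤ t0 ∧ t0 ≤ 3 * T ∧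
      ¬ NN a η (fun z => F (I * t0 + ra T a * z))} ≤ ENNReal.ofReal (C * T * Real.exp (-(c * a)))
  /-- few zeros far from the critical line, and few points where the logarithmic derivative is not as
  expected -/
  top : ∀ R ε0 η : ℝ, 1 ≤ R → 0 < ε0 → 0 < η → ∃ c C T0 : ℝ, 0 < c ∧ 0 < C ∧ 2 ≤ T0 ∧
    ∀ T : ℝ, T0 ≤ T → volume {t : ℝ | T / 2 ≤ t ∧ t ≤ 3 * T ∧ ¬ FarOK F R ε0 η t} ≤
      ENNReal.ofReal (C * T ^ (1 - c))

/-- Near the height `t` all scales `j0 ≤ j ≤ J` are good. -/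
def Loc (F : ℂ → ℂ) (η T : ℝ) (n j0 J : ℕ) (t : ℝ) : Prop := ∀ j : ℕ, j0 ≤ j → j ≤ J →
  ∃ t' : ℝ, |t - t'| ≤ ra T (2 ^ j * n) / 100 ∧
    NN (2 ^ j * n) η (fun z => F (I * t' + ra T (2 ^ j * n) * z))

end Pool.Agent.Y671.LD
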